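import Mathlib

/-!
# Calculations in a Temperley–Lieb algebra with the loop value zero
-/

set_option autoImplicit false
set_option linter.unusedSimpArgs false
set_option linter.unusedVariables false
set_option linter.unusedSectionVars false

namespace Pool.Agent.Helper52_CV

section alg

variable {B : Type*} [Ring B] [Algebra ℂ B]

/-- the relations of four strands, loop value `0` -/
structure TLz (a b c : B) : Prop where
  aa : a * a = 0
  bb : b * b = 0
  cc : c * c = 0
  aba : a * b * a = a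
  bab : b * a * b = b
  bcb : b * c * b = b
  cbc : c * b * c = c
  ac : a * c = c * a

variable {a b c : B}

/-- the projection -/
def PZ (a b : B) : B := 1 - a * b - b * a

theorem TLz.aP (h : TLz a b c) : a * PZ a b = 0 := by
  unfold PZ
  rw [mul_sub, mul_sub, mul_one, ← mul_assoc, h.aa, zero_mul, ← mul_assoc, h.aba]
  simp

theorem TLz.bP (h : TLz a b c) : b * PZ a b = 0 := by
  unfold PZ
  rw [mul_sub, mul_sub, mul_one, ← mul_assoc, h.bab, ← mul_assoc, h.bb, zero_mul]
  simp

theorem TLz.Pa (h : TLz a b c) : PZ a b * a = 0 := by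
  unfold PZ
  rw [sub_mul, sub_mul, one_mul, h.aba, mul_assoc, h.aa, mul_zero]
  simp

theorem TLz.Pb (h : TLz a b c) : PZ a b * b = 0 := by
  unfold PZ
  rw [sub_mul, sub_mul, one_mul, h.bab, mul_assoc, h.bb, mul_zero]
  simp

theorem TLz.PP (h : TLz a b c) : PZ a b * PZ a b = PZ a b := by
  nth_rewrite 1 [PZ]
  rw [sub_mul, sub_mul, one_mul, mul_assoc, h.bP, mul_assoc, h.aP]
  simp

theorem TLz.cPc (h : TLz a b c) : c * PZ a b * c = (-2 : ℂ) • (a * c) := by
  unfold PZ
  have e1 : c * (a * b) * c = a * c := by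
    rw [← mul_assoc, ← h.ac, mul_assoc, mul_assoc, ← mul_assoc c b c, h.cbc]
  have e2 : c * (b * a) * c = a * c := by
    rw [mul_assoc, mul_assoc, h.ac, ← mul_assoc b, ← mul_assoc, ← mul_assoc, h.cbc]
  rw [mul_sub, mul_sub, mul_one, sub_mul, sub_mul, h.cc, e1, e2]
  module

theorem TLz.PcPc (h : TLz a b c) : PZ a b * (c * (PZ a b * c)) = 0 := by
  rw [← mul_assoc c, h.cPc, mul_smul_comm, ← mul_assoc, h.Pa, zero_mul, smul_zero]

theorem TLz.cPcP (h : TLz a b c) : c * (PZ a b * (c * PZ a b)) = 0 := by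
  rw [← mul_assoc, ← mul_assoc, h.cPc, smul_mul_assoc, h.ac, mul_assoc, h.aP, mul_zero, smul_zero]

/-- the elements of the algebra of `b` and `c` -/
def Gm (b c : B) (e p β γ u : ℂ) : B :=
  e • (1 : B) + β • b + γ • c + (p - e) • (b * c) + (u - e) • (c * b)

theorem TLz.Gm_mul (h : TLz a b c) (e p β γ u e' p' β' γ' u' : ℂ) :
    Gm b c e p β γ u * Gm b c e' p' β' γ' u' =
      Gm b c (e * e') (p * p' + β * γ') (p * β' + β * u') (γ * p' + u * γ') (γ * β' + u * u') := by
  have h1 : b * (c * b) = b := by rw [← mul_assoc, h.bcb]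
  have h2 : c * (b * c) = c := by rw [← mul_assoc, h.cbc]
  have h3 : ∀ z : B, b * (b * z) = 0 := fun z => by rw [← mul_assoc, h.bb, zero_mul]
  have h4 : ∀ z : B, c * (c * z) = 0 := fun z => by rw [← mul_assoc, h.cc, zero_mul]
  unfold Gm
  simp only [mul_add, add_mul, smul_mul_assoc, mul_smul_comm, one_mul, mul_one, mul_assoc, h1, h2,
    h3, h4, h.bb, h.cc, mul_zero, smul_zero, smul_smul]
  match_scalars <;> ring

theorem Gm_one : Gm b c 1 1 0 0 1 = 1 := by
  unfold Gm
  simp

/-- the product with the projection on the right -/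
theorem TLz.gP (h : TLz a b c) (p β γ u : ℂ) :
    Gm b c 1 p β γ u * PZ a b = PZ a b + γ • (c * PZ a b) + (p - 1) • (b * (c * PZ a b)) := by
  unfold Gm
  simp only [add_mul, smul_mul_assoc, one_mul, mul_assoc, h.bP, mul_zero, smul_zero, one_smul]
  abel

theorem TLz.Pg (h : TLz a b c) (p β γ u : ℂ) :
    PZ a b * Gm b c 1 p β γ u = PZ a b + γ • (PZ a b * c) + (u - 1) • (PZ a b * (c * b)) := by
  unfold Gm
  have h1 : PZ a b * (b * c) = 0 := by rw [← mul_assoc, h.Pb, zero_mul]
  simp only [mul_add, mul_smul_comm, mul_one, h.Pb, h1, smul_zero, one_smul]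
  abel

/-- the commutator of the projection and its conjugate -/
theorem TLz.comm_eq (h : TLz a b c) (p β γ u β' : ℂ) :
    PZ a b * (Gm b c 1 p β γ u * PZ a b * Gm b c 1 u β' (-γ) p) -
      Gm b c 1 p β γ u * PZ a b * Gm b c 1 u β' (-γ) p * PZ a b =
    (-γ) • (PZ a b * c + c * PZ a b) + (p - 1) • (PZ a b * (c * b) - b * (c * PZ a b)) +
      (2 * γ) • (PZ a b * (c * PZ a b)) := by
  have hPb : ∀ z : B, PZ a b * (b * z) = 0 := fun z => by rw [← mul_assoc, h.Pb, zero_mul]
  have hPP : ∀ z : B, PZ a b * (PZ a b * z) = PZ a b * z := fun z => by rw [← mul_assoc, h.PP]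
  have hPcPc : ∀ z : B, PZ a b * (c * (PZ a b * (c * z))) = 0 := fun z => by
    have : PZ a b * (c * (PZ a b * (c * z))) = PZ a b * (c * (PZ a b * c)) * z := by
      simp only [mul_assoc]
    rw [this, h.PcPc, zero_mul]
  have e1 : PZ a b * (Gm b c 1 p β γ u * PZ a b * Gm b c 1 u β' (-γ) p) =
      PZ a b + (-γ) • (PZ a b * c) + (p - 1) • (PZ a b * (c * b)) + γ • (PZ a b * (c * PZ a b)) := by
    rw [mul_assoc (Gm b c 1 p β γ u), ← mul_assoc, h.Pg, h.Pg]
    simp only [mul_add, add_mul, smul_mul_assoc, mul_smul_comm, mul_assoc, h.PP, hPP, h.bP, hPb,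
      h.PcPc, hPcPc, mul_zero, smul_zero, add_zero]
    have hbP : ∀ z : B, b * (PZ a b * z) = 0 := fun z => by rw [← mul_assoc, h.bP, zero_mul]
    simp only [hbP, mul_zero, smul_zero, add_zero]
    module
  have e2 : Gm b c 1 p β γ u * PZ a b * Gm b c 1 u β' (-γ) p * PZ a b =
      PZ a b + γ • (c * PZ a b) + (p - 1) • (b * (c * PZ a b)) + (-γ) • (PZ a b * (c * PZ a b)) := by
    rw [mul_assoc (Gm b c 1 p β γ u), h.Pg, mul_assoc, ]
    have e3 : (PZ a b + -γ • (PZ a b * c) + (p - 1) • (PZ a b * (c * b))) * PZ a b =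
        PZ a b + (-γ) • (PZ a b * (c * PZ a b)) := by
      simp only [add_mul, smul_mul_assoc, mul_assoc, h.PP, h.bP, mul_zero, smul_zero, add_zero]
    have e4 : Gm b c 1 p β γ u * (PZ a b * (c * PZ a b)) = PZ a b * (c * PZ a b) := by
      rw [← mul_assoc, h.gP]
      simp only [add_mul, smul_mul_assoc, mul_assoc, h.cPcP, mul_zero, smul_zero, add_zero]
    rw [e3, mul_add, h.gP, mul_smul_comm, e4]
  rw [e1, e2]
  module

/-! ### traces -/

theorem TLz.trace (h : TLz a b c) (Ψ : B →ₗ[ℂ] ℂ) (hΨ : ∀ x y, Ψ (x * y) = Ψ (y * x))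
    (h0 : Ψ c = 0) (h1 : Ψ (a * b * c) = 1) {A A' : ℂ} (hA : A * A' = 1) (hA4 : A ^ 4 = -1)
    (p β γ u β' : ℂ) :
    Ψ ((A • (1 : B) + A' • a) * (A • (1 : B) + A' • b) * (A • (1 : B) + A' • c) *
      (PZ a b * (Gm b c 1 p β γ u * PZ a b * Gm b c 1 u β' (-γ) p) -
      Gm b c 1 p β γ u * PZ a b * Gm b c 1 u β' (-γ) p * PZ a b)) =
    2 * A' * γ + 2 * A * (p - 1) := by
  have hA2 : A' ^ 2 = -A ^ 2 := by
    have : A' ^ 2 * A ^ 4 = A ^ 2 := by
      have : A' ^ 2 * A ^ 4 = (A * A') ^ 2 * A ^ 2 := by ring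
      rw [this, hA]; ring
    rw [hA4] at this
    linear_combination -this
  have hA3 : A ^ 3 = -A' := by
    linear_combination (A ^ 3 * 1) * (0 : ℂ) * hA - A ^ 3 * hA + A' * hA4
  rw [h.comm_eq]
  set P := PZ a b with hP
  have sa : (A • (1 : B) + A' • a) * P = A • P := by
    rw [add_mul, smul_mul_assoc, smul_mul_assoc, one_mul, h.aP, smul_zero, add_zero]
  have as : P * (A • (1 : B) + A' • a) = A • P := by
    rw [mul_add, mul_smul_comm, mul_smul_comm, mul_one, h.Pa, smul_zero, add_zero]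
  have bs : P * (A • (1 : B) + A' • b) = A • P := by
    rw [mul_add, mul_smul_comm, mul_smul_comm, mul_one, h.Pb, smul_zero, add_zero]
  set Sa := A • (1 : B) + A' • a with hSa
  set Sb := A • (1 : B) + A' • b with hSb
  set Sc := A • (1 : B) + A' • c with hSc
  have hPc : Ψ (P * c) = -2 := by
    rw [hP, PZ, sub_mul, sub_mul, one_mul, map_sub, map_sub, h0, h1]
    have : Ψ (b * a * c) = Ψ (a * b * c) := by
      rw [mul_assoc, hΨ, h.ac, mul_assoc, hΨ]
    rw [this, h1]
    norm_num
  have cSa : c * Sa = Sa * c := by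
    rw [hSa, mul_add, add_mul, mul_smul_comm, smul_mul_assoc, mul_smul_comm, smul_mul_assoc, h.ac,
      one_mul, mul_one]
  have aSc : a * Sc = Sc * a := by
    rw [hSc, mul_add, add_mul, mul_smul_comm, smul_mul_assoc, mul_smul_comm, smul_mul_assoc, h.ac,
      one_mul, mul_one]
  have cSbSc : c * (Sb * Sc) = c * b := by
    have e1 : c * (b * c) = c := by rw [← mul_assoc, h.cbc]
    rw [hSb, hSc]
    simp only [mul_add, add_mul, smul_mul_assoc, mul_smul_comm, one_mul, mul_one, h.cc, e1,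
      smul_zero, smul_add, smul_smul, mul_assoc]
    match_scalars
    · linear_combination hA2
    · linear_combination hA
  have bSaSb : b * (Sa * Sb) = b * a := by
    have e1 : b * (a * b) = b := by rw [← mul_assoc, h.bab]
    rw [hSa, hSb]
    simp only [mul_add, add_mul, smul_mul_assoc, mul_smul_comm, one_mul, mul_one, h.bb, e1,
      smul_zero, smul_add, smul_smul, mul_assoc]
    match_scalars
    · linear_combination hA2
    · linear_combination hA
  have Scc : Sc * c = A • c := by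
    rw [hSc, add_mul, smul_mul_assoc, smul_mul_assoc, one_mul, h.cc, smul_zero, add_zero]
  -- the five values
  have t1 : Ψ (Sa * Sb * Sc * (P * c)) = 0 := by
    have e : Ψ (Sa * Sb * Sc * (P * c)) = Ψ (Sa * (c * (Sb * Sc)) * P) := by
      rw [← mul_assoc, hΨ]
      congr 1
      simp only [← mul_assoc]
      rw [cSa]
    rw [e, cSbSc, mul_assoc, mul_assoc, h.bP]
    simp
  have hPSS : P * (Sa * Sb) = (A * A) • P := by
    rw [← mul_assoc, as, smul_mul_assoc, bs, smul_smul]
  have t2 : Ψ (Sa * Sb * Sc * (c * P)) = A ^ 3 * (-2) := by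
    have e : Ψ (Sa * Sb * Sc * (c * P)) = Ψ (P * (Sa * Sb) * (Sc * c)) := by
      rw [← mul_assoc, hΨ]
      congr 1
      simp only [mul_assoc]
    rw [e, hPSS, Scc, smul_mul_assoc, mul_smul_comm, map_smul, map_smul, hPc, smul_eq_mul,
      smul_eq_mul]
    ring
  have t3 : Ψ (Sa * Sb * Sc * (P * (c * P))) = A ^ 3 * (-2) := by
    have e : Ψ (Sa * Sb * Sc * (P * (c * P))) = Ψ (P * (Sa * Sb) * (Sc * (P * c))) := by
      rw [← mul_assoc, ← mul_assoc, hΨ]
      congr 1
      simp only [mul_assoc]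
    rw [e, hPSS, smul_mul_assoc, map_smul, hSc, add_mul, smul_mul_assoc, smul_mul_assoc, one_mul,
      mul_add, mul_smul_comm, mul_smul_comm, ← mul_assoc, h.PP, h.PcPc, smul_zero, add_zero,
      map_smul, hPc, smul_eq_mul, smul_eq_mul]
    ring
  have t4 : Ψ (Sa * Sb * Sc * (b * (c * P))) = A * (-2) := by
    have e : Ψ (Sa * Sb * Sc * (b * (c * P))) = Ψ (P * (Sa * Sb) * (Sc * (b * c))) := by
      rw [← mul_assoc, ← mul_assoc, hΨ]
      congr 1
      simp only [mul_assoc]
    have e2 : P * (b * c) = 0 := by rw [← mul_assoc, h.Pb, zero_mul]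
    have e3 : c * (b * c) = c := by rw [← mul_assoc, h.cbc]
    rw [e, hPSS, smul_mul_assoc, map_smul, hSc, add_mul, smul_mul_assoc, smul_mul_assoc, one_mul,
      mul_add, mul_smul_comm, mul_smul_comm, e2, e3, smul_zero, zero_add,
      map_smul, hPc, smul_eq_mul, smul_eq_mul]
    linear_combination (-2 * A) * hA
  have t5 : Ψ (Sa * Sb * Sc * (P * (c * b))) = 0 := by
    have e : Ψ (Sa * Sb * Sc * (P * (c * b))) = Ψ (b * (Sa * Sb) * Sc * (P * c)) := by
      rw [← mul_assoc, ← mul_assoc, hΨ]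
      congr 1
      simp only [mul_assoc]
    have e2 : b * a * Sc * (P * c) = b * Sc * (a * P) * c := by
      rw [mul_assoc b a Sc, aSc]
      simp only [mul_assoc]
    rw [e, bSaSb, e2, h.aP]
    simp
  rw [mul_add, mul_add, mul_smul_comm, mul_smul_comm, mul_smul_comm, mul_add, mul_sub, map_add,
    map_add, map_smul, map_smul, map_smul, map_add, map_sub, t1, t2, t3, t4, t5]
  simp only [smul_eq_mul]
  rw [hA3]
  ring

/-- the double commutator with an idempotent -/
theorem ad_cube {P x : B} (hP : P * P = P) :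
    P * (P * (P * x - x * P) - (P * x - x * P) * P) - (P * (P * x - x * P) - (P * x - x * P) * P) * P =
      P * x - x * P := by
  have h1 : ∀ z : B, P * (P * z) = P * z := fun z => by rw [← mul_assoc, hP]
  simp only [mul_sub, sub_mul, mul_assoc, hP, h1]
  abel

theorem ad_cube' {P x : B} (hP : P * P = P) :
    ((x * P - P * x) * P - P * (x * P - P * x)) * P -
      P * ((x * P - P * x) * P - P * (x * P - P * x)) = x * P - P * x := by
  have h1 : ∀ z : B, P * (P * z) = P * z := fun z => by rw [← mul_assoc, hP]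
  simp only [mul_sub, sub_mul, mul_assoc, hP, h1]
  abel

end alg

end Pool.Agent.Helper52_CV
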