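import Pool.Agent.Helper52_CV.Tra
import Pool.Agent.Helper52_CV.Alg

/-!
# Specialisation at `A = e^{πi/4}`, that is `t = -1`
-/

set_option autoImplicit false

namespace Pool.Agent.Helper52_CV

open Finset LaurentPolynomial TensorProduct Pool.Agent.H891R2.Jones Pool.Agent.W639.RB
  Pool.Agent.Y463.SK Pool.Agent.Y463.MP

/-- `e^{πi/4}` -/
noncomputable def z8 : ℂˣ := Units.mk0 (Complex.exp (Real.pi / 4 * Complex.I)) (Complex.exp_ne_zero _)

theorem z8_four : (z8 : ℂ) ^ 4 = -1 := by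
  unfold z8
  rw [Units.val_mk0, ← Complex.exp_nat_mul]
  have : ((4 : ℕ) : ℂ) * (Real.pi / 4 * Complex.I) = Real.pi * Complex.I := by push_cast; ring
  rw [this, Complex.exp_pi_mul_I]

theorem z8_ne : (z8 : ℂ) ≠ 0 := z8.ne_zero

/-- evaluation at `A = e^{πi/4}` -/
noncomputable def e8 : ℤ[T;T⁻¹] →+* ℂ := LaurentPolynomial.eval₂ (Int.castRingHom ℂ) z8

theorem e8_T (n : ℤ) : e8 (T n) = (z8 : ℂ) ^ n := by
  unfold e8
  rw [LaurentPolynomial.eval₂_T]
  simp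

theorem e8_T1 : e8 (T 1) = z8 := by rw [e8_T, zpow_one]
theorem e8_Tm1 : e8 (T (-1)) = (z8 : ℂ)⁻¹ := by rw [e8_T, _root_.zpow_neg_one]

theorem z8_mul : (z8 : ℂ) * (z8 : ℂ)⁻¹ = 1 := mul_inv_cancel₀ z8_ne

theorem z8_inv_sq : ((z8 : ℂ)⁻¹) ^ 2 = -(z8 : ℂ) ^ 2 := by
  have h := z8_four
  have h2 := z8_mul
  have : ((z8 : ℂ)⁻¹) ^ 2 * (z8 : ℂ) ^ 4 = (z8 : ℂ) ^ 2 := by
    have : ((z8 : ℂ)⁻¹) ^ 2 * (z8 : ℂ) ^ 4 = ((z8 : ℂ) * (z8 : ℂ)⁻¹) ^ 2 * (z8 : ℂ) ^ 2 := by ring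
    rw [this, h2]; ring
  rw [h] at this
  linear_combination -this

theorem e8_dl : e8 dl = 0 := by
  unfold dl
  rw [map_sub, map_neg, map_pow, map_pow, e8_T1, e8_Tm1, z8_inv_sq]
  ring

theorem e8_dl' : e8 (-(T 1) ^ 2 - (T (-1)) ^ 2) = 0 := e8_dl

theorem e8_xx (s : ℕ) : e8 (xx s) = 0 := by
  unfold xx cq
  rw [map_mul, map_sum]
  have h1 : ∀ i : ℕ, e8 (((T 1 : ℤ[T;T⁻¹]) ^ 12) ^ i) = (-1 : ℂ) ^ i := by
    intro i
    rw [map_pow, map_pow, e8_T1]
    have : (z8 : ℂ) ^ 12 = -1 := by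
      have : (z8 : ℂ) ^ 12 = ((z8 : ℂ) ^ 4) ^ 3 := by ring
      rw [this, z8_four]; ring
    rw [this]
  simp only [h1]
  have h2 : ∑ i ∈ range (2 * s), (-1 : ℂ) ^ i = 0 := by
    induction s with
    | zero => simp
    | succ s ih =>
      rw [show 2 * (s + 1) = 2 * s + 1 + 1 by ring, sum_range_succ, sum_range_succ, ih, pow_succ]
      ring
  rw [h2, mul_zero]

noncomputable local instance algE8 : Algebra ℤ[T;T⁻¹] ℂ := e8.toAlgebra

theorem alg_eq (r : ℤ[T;T⁻¹]) : algebraMap ℤ[T;T⁻¹] ℂ r = e8 r := rfl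

/-- the Temperley–Lieb algebra at `t = -1` -/
abbrev T8 : Type := TLL ℂ 4

/-- the reduction -/
noncomputable def rd : TLZ 4 →ₐ[ℤ[T;T⁻¹]] T8 := inc ℂ 4

theorem rd_smul (r : ℤ[T;T⁻¹]) (z : TLZ 4) : rd (r • z) = e8 r • rd z := inc_smul ℂ r z

/-- the generators -/
noncomputable def g0 : T8 := rd (EZ 4 0)
/-- the generators -/
noncomputable def g1 : T8 := rd (EZ 4 1)
/-- the generators -/
noncomputable def g2 : T8 := rd (EZ 4 2)

theorem tlz : TLz g0 g1 g2 where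
  aa := by
    unfold g0
    rw [← map_mul, (isTL_EZ 4).sq 0 (by norm_num), rd_smul, e8_dl', zero_smul]
  bb := by
    unfold g1
    rw [← map_mul, (isTL_EZ 4).sq 1 (by norm_num), rd_smul, e8_dl', zero_smul]
  cc := by
    unfold g2
    rw [← map_mul, (isTL_EZ 4).sq 2 (by norm_num), rd_smul, e8_dl', zero_smul]
  aba := by
    unfold g0 g1
    rw [← map_mul, ← map_mul, (isTL_EZ 4).up 0 (by norm_num)]
  bab := by
    unfold g0 g1
    rw [← map_mul, ← map_mul, (isTL_EZ 4).down 0 (by norm_num)]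
  bcb := by
    unfold g1 g2
    rw [← map_mul, ← map_mul, (isTL_EZ 4).up 1 (by norm_num)]
  cbc := by
    unfold g1 g2
    rw [← map_mul, ← map_mul, (isTL_EZ 4).down 1 (by norm_num)]
  ac := by
    unfold g0 g2
    rw [← map_mul, ← map_mul, (isTL_EZ 4).far 0 2 (by norm_num) (by norm_num)]

/-- the trace -/
noncomputable def Ps : T8 →ₗ[ℂ] ℂ := phiL ℂ (by norm_num : 0 < 4) (braidClosure 4)

theorem Ps_rd (z : TLZ 4) : Ps (rd z) = e8 (F4 z) := phiL_inc ℂ (by norm_num) (braidClosure 4) z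

theorem Ps_comm (x y : T8) : Ps (x * y) = Ps (y * x) := by
  induction x using TensorProduct.induction_on with
  | zero => rw [zero_mul, mul_zero]
  | add v w hv hw => rw [add_mul, mul_add, map_add, map_add, hv, hw]
  | tmul c b =>
    induction y using TensorProduct.induction_on with
    | zero => rw [zero_mul, mul_zero]
    | add v w hv hw => rw [add_mul, mul_add, map_add, map_add, hv, hw]
    | tmul c' b' =>
      rw [inc_tmul, inc_tmul, smul_mul_assoc, smul_mul_assoc, mul_smul_comm, mul_smul_comm,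
        map_smul, map_smul, map_smul, map_smul, ← map_mul, ← map_mul]
      have h1 : Ps (inc ℂ 4 (b * b')) = e8 (F4 (b * b')) := Ps_rd (b * b')
      have h2 : Ps (inc ℂ 4 (b' * b)) = e8 (F4 (b' * b)) := Ps_rd (b' * b)
      rw [h1, h2, FC_comm, smul_comm]

theorem Ps_g2 : Ps g2 = 0 := by
  unfold g2
  rw [Ps_rd, F4_E2, map_pow, e8_dl]
  norm_num

theorem Ps_g012 : Ps (g0 * g1 * g2) = 1 := by
  unfold g0 g1 g2
  rw [← map_mul, ← map_mul, Ps_rd, F4_E012, map_one]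

end Pool.Agent.Helper52_CV
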