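import Pool.Agent.Helper52_CV.Bur
import Pool.Agent.Helper52_CV.Loc

/-!
# Powers of `3`-braids which are `1` modulo a Chebyshev polynomial of the Burau trace
-/

set_option autoImplicit false
set_option linter.unusedSimpArgs false

namespace Pool.Agent.Helper52_CV

open Finset LaurentPolynomial Matrix Pool.Agent.H891R2.Jones Pool.Agent.W639.RB Pool.Agent.Y463.SK
  Pool.Agent.Y463.MP

theorem invW_up (w : List (Letter 3)) : invW (w.map up) = (invW w).map up := by
  simp [invW, up, List.map_reverse, List.map_map, Function.comp_def]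

theorem invW_cons3 (x : Letter 3) (w : List (Letter 3)) : invW (x :: w) = invW w ++ [(!x.1, x.2)] := by
  simp [invW]

theorem expSum_append (v w : List (Letter 3)) : expSum (v ++ w) = expSum v + expSum w := by
  simp [expSum]

theorem expSum_inv (w : List (Letter 3)) : expSum (invW w) = -expSum w := by
  induction w with
  | nil => simp [expSum, invW]
  | cons x w ih =>
    rw [invW_cons3, expSum_append, ih, expSum_cons]
    obtain ⟨b, i⟩ := x
    cases b <;> simp [expSum]

theorem mat_eq {L : Type*} {a b c d a' b' c' d' : L} (h1 : a = a') (h2 : b = b') (h3 : c = c')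
    (h4 : d = d') : !![a, b; c, d] = !![a', b'; c', d'] := by rw [h1, h2, h3, h4]

theorem smul_mat {L : Type*} [Mul L] (r a b c d : L) :
    r • !![a, b; c, d] = !![r * a, r * b; r * c, r * d] := by
  ext i j
  fin_cases i <;> fin_cases j <;> rfl

theorem mE_mul (x : Letter 3) : mE x * mE (!x.1, x.2) = 1 := by
  have h := TT
  have e0 : ∀ b, mE (b, 0) = if b then !![T 1 + T (-1) * dd, T (-1); 0, T 1]
    else !![T (-1) + T 1 * dd, T 1; 0, T (-1)] := fun b => by cases b <;> rfl
  have e1 : ∀ b, mE (b, 1) = if b then !![T 1, 0; T (-1), T 1 + T (-1) * dd]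
    else !![T (-1), 0; T 1, T (-1) + T 1 * dd] := fun b => by cases b <;> rfl
  obtain ⟨b, i⟩ := x
  fin_cases i
  · show mE (b, 0) * mE (!b, 0) = 1
    rw [e0, e0]
    cases b <;> simp only [Bool.not_true, Bool.not_false, if_true, Bool.false_eq_true, if_false] <;>
      rw [Matrix.mul_fin_two, Matrix.one_fin_two] <;> unfold dd <;>
      generalize (T 1 : ℤ[T;T⁻¹]) = a at * <;>
      generalize (T (-1) : ℤ[T;T⁻¹]) = a' at * <;>
      refine mat_eq ?_ ?_ ?_ ?_
    · linear_combination (1 + (-a ^ 2 - a' ^ 2) ^ 2) * h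
    · linear_combination (-a ^ 2 - a' ^ 2) * h
    · ring
    · linear_combination h
    · linear_combination (1 + (-a ^ 2 - a' ^ 2) ^ 2) * h
    · linear_combination (-a ^ 2 - a' ^ 2) * h
    · ring
    · linear_combination h
  · show mE (b, 1) * mE (!b, 1) = 1
    rw [e1, e1]
    cases b <;> simp only [Bool.not_true, Bool.not_false, if_true, Bool.false_eq_true, if_false] <;>
      rw [Matrix.mul_fin_two, Matrix.one_fin_two] <;> unfold dd <;>
      generalize (T 1 : ℤ[T;T⁻¹]) = a at * <;>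
      generalize (T (-1) : ℤ[T;T⁻¹]) = a' at * <;>
      refine mat_eq ?_ ?_ ?_ ?_
    · linear_combination h
    · ring
    · linear_combination (-a ^ 2 - a' ^ 2) * h
    · linear_combination (1 + (-a ^ 2 - a' ^ 2) ^ 2) * h
    · linear_combination h
    · ring
    · linear_combination (-a ^ 2 - a' ^ 2) * h
    · linear_combination (1 + (-a ^ 2 - a' ^ 2) ^ 2) * h

theorem mW_mul (w : List (Letter 3)) : (w.map mE).prod * ((invW w).map mE).prod = 1 := by
  induction w with
  | nil => simp [invW]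
  | cons x w ih =>
    rw [invW_cons3, List.map_cons, List.prod_cons, List.map_append, List.prod_append, List.map_cons,
      List.map_nil, List.prod_cons, List.prod_nil, mul_one]
    have e : mE x * (w.map mE).prod * (((invW w).map mE).prod * mE (!x.1, x.2)) =
        mE x * ((w.map mE).prod * ((invW w).map mE).prod) * mE (!x.1, x.2) := by
      simp only [mul_assoc]
    rw [e, ih, mul_one, mE_mul]

/-- the determinant of `σ_i` -/
noncomputable def qU : ℤ[T;T⁻¹]ˣ where
  val := -T (-2)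
  inv := -T 2
  val_inv := by rw [neg_mul_neg, ← T_add, neg_add_cancel, T_zero]
  inv_val := by rw [neg_mul_neg, ← T_add, add_neg_cancel, T_zero]

theorem det_mE (x : Letter 3) :
    (mE x).det = ((qU ^ (if x.1 then (1 : ℤ) else -1) : ℤ[T;T⁻¹]ˣ) : ℤ[T;T⁻¹]) := by
  have h := TT
  have e0 : ∀ b, mE (b, 0) = if b then !![T 1 + T (-1) * dd, T (-1); 0, T 1]
    else !![T (-1) + T 1 * dd, T 1; 0, T (-1)] := fun b => by cases b <;> rfl
  have e1 : ∀ b, mE (b, 1) = if b then !![T 1, 0; T (-1), T 1 + T (-1) * dd]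
    else !![T (-1), 0; T 1, T (-1) + T 1 * dd] := fun b => by cases b <;> rfl
  have t1 : ((qU ^ (1 : ℤ) : ℤ[T;T⁻¹]ˣ) : ℤ[T;T⁻¹]) = -(T (-1)) ^ 2 := by
    rw [zpow_one, T_pow]
    show -T (-2) = _
    norm_num
  have t2 : ((qU ^ (-1 : ℤ) : ℤ[T;T⁻¹]ˣ) : ℤ[T;T⁻¹]) = -(T 1) ^ 2 := by
    rw [_root_.zpow_neg_one, T_pow]
    show -T 2 = _
    norm_num
  obtain ⟨b, i⟩ := x
  fin_cases i
  · show (mE (b, 0)).det = ((qU ^ (if b then (1 : ℤ) else -1) : ℤ[T;T⁻¹]ˣ) : ℤ[T;T⁻¹])
    rw [e0]
    cases b <;> simp only [if_true, Bool.false_eq_true, if_false, t1, t2] <;>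
      rw [Matrix.det_fin_two_of] <;> unfold dd <;>
      generalize (T 1 : ℤ[T;T⁻¹]) = a at * <;>
      generalize (T (-1) : ℤ[T;T⁻¹]) = a' at *
    · linear_combination (-a ^ 2 - a' ^ 2) * h
    · linear_combination (-a ^ 2 - a' ^ 2) * h
  · show (mE (b, 1)).det = ((qU ^ (if b then (1 : ℤ) else -1) : ℤ[T;T⁻¹]ˣ) : ℤ[T;T⁻¹])
    rw [e1]
    cases b <;> simp only [if_true, Bool.false_eq_true, if_false, t1, t2] <;>
      rw [Matrix.det_fin_two_of] <;> unfold dd <;>
      generalize (T 1 : ℤ[T;T⁻¹]) = a at * <;>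
      generalize (T (-1) : ℤ[T;T⁻¹]) = a' at *
    · linear_combination (-a ^ 2 - a' ^ 2) * h
    · linear_combination (-a ^ 2 - a' ^ 2) * h

theorem det_mW (w : List (Letter 3)) :
    ((w.map mE).prod).det = ((qU ^ (expSum w) : ℤ[T;T⁻¹]ˣ) : ℤ[T;T⁻¹]) := by
  induction w with
  | nil => simp [expSum]
  | cons x w ih =>
    rw [List.map_cons, List.prod_cons, Matrix.det_mul, ih, det_mE, expSum_cons, _root_.zpow_add,
      Units.val_mul]

theorem adj_mW (w : List (Letter 3)) (hw : expSum w = 0) :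
    ((invW w).map mE).prod = (w.map mE).prod.adjugate := by
  have h1 := mW_mul w
  have h2 := Matrix.adjugate_mul (w.map mE).prod
  rw [det_mW, hw, _root_.zpow_zero, Units.val_one, one_smul] at h2
  exact (left_inv_eq_right_inv h2 h1).symm

/-! ### the trace -/

/-- the matrix of the base change -/
noncomputable def mD : Matrix (Fin 2) (Fin 2) ℤ[T;T⁻¹] := !![1, 0; 0, T 2]

theorem mE_D (x : Letter 3) :
    mE x * mD = mD * ((T (if x.1 then (1 : ℤ) else -1) : ℤ[T;T⁻¹]) • burau x) := by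
  have h := TT
  have t2 : (T 2 : ℤ[T;T⁻¹]) = (T 1) ^ 2 := by rw [T_pow]; norm_num
  have t4 : (T 4 : ℤ[T;T⁻¹]) = (T 1) ^ 4 := by rw [T_pow]; norm_num
  have t5 : (T (-4) : ℤ[T;T⁻¹]) = (T (-1)) ^ 4 := by rw [T_pow]; norm_num
  have e0 : ∀ b, mE (b, 0) = if b then !![T 1 + T (-1) * dd, T (-1); 0, T 1]
    else !![T (-1) + T 1 * dd, T 1; 0, T (-1)] := fun b => by cases b <;> rfl
  have e1 : ∀ b, mE (b, 1) = if b then !![T 1, 0; T (-1), T 1 + T (-1) * dd]
    else !![T (-1), 0; T 1, T (-1) + T 1 * dd] := fun b => by cases b <;> rfl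
  have f0 : ∀ b, burau (b, 0) = if b then !![-T (-4), 1; 0, 1] else !![-T 4, T 4; 0, 1] :=
    fun b => by cases b <;> rfl
  have f1 : ∀ b, burau (b, 1) = if b then !![1, 0; T (-4), -T (-4)] else !![1, 0; 1, -T 4] :=
    fun b => by cases b <;> rfl
  obtain ⟨b, i⟩ := x
  unfold mD
  fin_cases i
  · show mE (b, 0) * _ = _ * ((T (if b then (1 : ℤ) else -1) : ℤ[T;T⁻¹]) • burau (b, 0))
    rw [e0, f0, t4, t5, t2]
    cases b <;> simp only [if_true, Bool.false_eq_true, if_false] <;>
      rw [smul_mat, Matrix.mul_fin_two, Matrix.mul_fin_two] <;> unfold dd <;>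
      generalize (T 1 : ℤ[T;T⁻¹]) = a at * <;>
      generalize (T (-1) : ℤ[T;T⁻¹]) = a' at * <;>
      refine mat_eq ?_ ?_ ?_ ?_
    · linear_combination (-a' + a ^ 3) * h
    · linear_combination (-a ^ 3) * h
    · ring
    · ring
    · linear_combination (a' ^ 3 - a) * h
    · linear_combination a * h
    · ring
    · ring
  · show mE (b, 1) * _ = _ * ((T (if b then (1 : ℤ) else -1) : ℤ[T;T⁻¹]) • burau (b, 1))
    rw [e1, f1, t4, t5, t2]
    cases b <;> simp only [if_true, Bool.false_eq_true, if_false] <;>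
      rw [smul_mat, Matrix.mul_fin_two, Matrix.mul_fin_two] <;> unfold dd <;>
      generalize (T 1 : ℤ[T;T⁻¹]) = a at * <;>
      generalize (T (-1) : ℤ[T;T⁻¹]) = a' at * <;>
      refine mat_eq ?_ ?_ ?_ ?_
    · ring
    · ring
    · linear_combination (-a) * h
    · linear_combination (a ^ 2 * (a ^ 3 - a')) * h
    · ring
    · ring
    · linear_combination (-a' * (1 + a * a' + a ^ 2 * a' ^ 2)) * h
    · linear_combination (a ^ 2 * (a' ^ 3 - a)) * h

theorem mW_D (w : List (Letter 3)) :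
    (w.map mE).prod * mD = mD * ((T (expSum w) : ℤ[T;T⁻¹]) • (w.map burau).prod) := by
  induction w with
  | nil =>
    have : (T (expSum ([] : List (Letter 3))) : ℤ[T;T⁻¹]) = 1 := by
      simp [expSum]
    rw [this, one_smul]
    simp
  | cons x w ih =>
    rw [List.map_cons, List.prod_cons, List.map_cons, List.prod_cons, expSum_cons, T_add, mul_assoc,
      ih, ← mul_assoc, mE_D, mul_assoc, smul_mul_smul_comm]

theorem trace_mW (w : List (Letter 3)) (hw : expSum w = 0) :
    (w.map mE).prod.trace = burauTrace w := by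
  have h := mW_D w
  rw [hw, T_zero, one_smul] at h
  have h1 : mD * (!![1, 0; 0, T (-2)] : Matrix (Fin 2) (Fin 2) ℤ[T;T⁻¹]) = 1 := by
    unfold mD
    rw [Matrix.mul_fin_two, Matrix.one_fin_two]
    refine mat_eq (by ring) (by ring) (by ring) ?_
    rw [← T_add]
    simp
  have h2 : (!![1, 0; 0, T (-2)] : Matrix (Fin 2) (Fin 2) ℤ[T;T⁻¹]) * mD = 1 := by
    unfold mD
    rw [Matrix.mul_fin_two, Matrix.one_fin_two]
    refine mat_eq (by ring) (by ring) (by ring) ?_
    rw [← T_add]
    simp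
  have h3 : (w.map mE).prod = mD * (w.map burau).prod * !![1, 0; 0, T (-2)] := by
    rw [← h, mul_assoc, h1, mul_one]
  rw [h3, Matrix.trace_mul_comm, ← mul_assoc, h2, one_mul]
  rfl

theorem dd_ne : (dd ^ 2 - 1 : ℤ[T;T⁻¹]) ≠ 0 := by
  intro h
  have h1 : e8 (dd ^ 2 - 1) = -1 := by
    unfold dd
    rw [map_sub, map_pow, e8_dl', map_one]
    norm_num
  rw [h, map_zero] at h1
  norm_num at h1

/-- even powers of a `3`-braid of exponent sum zero -/
theorem zz_up_pow (w : List (Letter 3)) (hw : expSum w = 0) (n : ℕ) : ∃ y : TLZ 4,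
    zz (List.replicate (2 * n) (w.map up)).flatten = 1 + Sg (burauTrace w) n • y := by
  have h1 := Rq_word w
  have h2 := Rq_word (invW w)
  rw [expSum_inv, hw, neg_zero, T_zero, adj_mW w hw] at h2
  rw [hw, T_zero] at h1
  obtain ⟨Φ, h3⟩ := Rq_sum dd_ne h1 h2
  have hT := tl2_EZ (m := 4) 1 (by norm_num)
  have f1 := hT.Rq_F h1
  have f2 := hT.Rq_F h2
  rw [one_smul] at f1 f2
  rw [trace_mW w hw] at h3
  rw [← invW_up] at h3 f2
  refine ⟨zz (w.map up) ^ n * (zz (w.map up) - zz (invW (w.map up))), ?_⟩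
  rw [zz_flatten]
  refine pow_two_mul (zz_inv _) (zz_inv' _) h3 ?_ ?_ n
  · rw [mul_smul_comm]
    exact congrArg _ f1
  · rw [mul_smul_comm]
    exact congrArg _ f2

set_option maxRecDepth 100000 in
theorem perm4 (σ : Equiv.Perm (Fin 4)) : σ ^ 12 = 1 := by
  revert σ
  decide

theorem permW_append4 (v w : List (Letter 4)) : permW (v ++ w) = permW v * permW w := by
  simp [permW]

theorem permW_pow4 (v : List (Letter 4)) (n : ℕ) :
    permW (List.replicate n v).flatten = permW v ^ n := by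
  induction n with
  | zero => rfl
  | succ n ih => rw [List.replicate_succ, List.flatten_cons, permW_append4, ih, pow_succ']

/-- the power of a `3`-braid -/
def wP (s : ℕ) (w : List (Letter 3)) : List (Letter 4) := (List.replicate (12 * s) (w.map up)).flatten

theorem wk_P (s : ℕ) (w : List (Letter 3)) (hw : expSum w = 0) :
    Wk (Sg (burauTrace w) (6 * s)) (wP s w) := by
  refine ⟨?_, ?_⟩
  · obtain ⟨y, hy⟩ := zz_up_pow w hw (6 * s)
    rw [← mul_assoc] at hy
    exact N1.nr ⟨zz_inv _, zz_inv' _, y, hy⟩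
  · apply permL_of_pure
    show permW _ = 1
    unfold wP
    rw [permW_pow4, pow_mul, perm4, one_pow]

end Pool.Agent.Helper52_CV
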