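import Pool.Agent.Helper52_CV.Lcs

/-!
# Powers of `3`-braids in the Temperley–Lieb algebra
-/

set_option autoImplicit false
set_option linter.unusedSimpArgs false

namespace Pool.Agent.Helper52_CV

open Finset LaurentPolynomial Matrix Pool.Agent.H891R2.Jones Pool.Agent.W639.RB Pool.Agent.Y463.SK
  Pool.Agent.Y463.MP

section generic

variable {L B : Type*} [CommRing L] [Ring B] [Algebra L B]

/-- elements of the Temperley–Lieb algebra on three strands -/
def G5 (a b : B) (e β γ φ ψ : L) : B :=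
  e • (1 : B) + β • a + γ • b + φ • (a * b) + ψ • (b * a)

/-- their matrices in the two-dimensional representation -/
def P5 (δ e β γ φ ψ : L) : Matrix (Fin 2) (Fin 2) L :=
  !![e + β * δ + φ, β + φ * δ; γ + ψ * δ, e + γ * δ + ψ]

/-- `z` has the scalar `e` and the matrix `P` -/
def Rq (δ : L) (a b : B) (z : B) (e : L) (P : Matrix (Fin 2) (Fin 2) L) : Prop :=
  ∃ β γ φ ψ : L, z = G5 a b e β γ φ ψ ∧ P = P5 δ e β γ φ ψ

variable {δ : L} {a b : B}

theorem Rq_one : Rq δ a b 1 1 1 := by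
  refine ⟨0, 0, 0, 0, by simp [G5], ?_⟩
  ext i j
  fin_cases i <;> fin_cases j <;> simp [P5]

theorem TL2.Rq_a (h : TL2 δ a b) (α α' : L) {z : B} {e : L} {P : Matrix (Fin 2) (Fin 2) L}
    (hz : Rq δ a b z e P) :
    Rq δ a b ((α • (1 : B) + α' • a) * z) (α * e) (!![α + α' * δ, α'; 0, α] * P) := by
  obtain ⟨β, γ, φ, ψ, rfl, rfl⟩ := hz
  have h1 : a * (b * a) = a := by rw [← mul_assoc, h.aba]
  have h2 : a * (a * b) = δ • (a * b) := by rw [← mul_assoc, h.aa, smul_mul_assoc]
  refine ⟨α * β + α' * (e + β * δ + ψ), α * γ, α * φ + α' * (γ + φ * δ), α * ψ, ?_, ?_⟩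
  · unfold G5
    simp only [mul_add, add_mul, smul_mul_assoc, mul_smul_comm, one_mul, mul_one, h.aa, h1, h2]
    module
  · unfold P5
    ext i j
    fin_cases i <;> fin_cases j <;> simp [Matrix.mul_apply, Fin.sum_univ_two] <;> ring

theorem TL2.Rq_b (h : TL2 δ a b) (α α' : L) {z : B} {e : L} {P : Matrix (Fin 2) (Fin 2) L}
    (hz : Rq δ a b z e P) :
    Rq δ a b ((α • (1 : B) + α' • b) * z) (α * e) (!![α, 0; α', α + α' * δ] * P) := by
  obtain ⟨β, γ, φ, ψ, rfl, rfl⟩ := hz
  have h1 : b * (a * b) = b := by rw [← mul_assoc, h.bab]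
  have h2 : b * (b * a) = δ • (b * a) := by rw [← mul_assoc, h.bb, smul_mul_assoc]
  refine ⟨α * β, α * γ + α' * (e + γ * δ + φ), α * φ, α * ψ + α' * (β + ψ * δ), ?_, ?_⟩
  · unfold G5
    simp only [mul_add, add_mul, smul_mul_assoc, mul_smul_comm, one_mul, mul_one, h.bb, h1, h2]
    module
  · unfold P5
    ext i j
    fin_cases i <;> fin_cases j <;> simp [Matrix.mul_apply, Fin.sum_univ_two] <;> ring

theorem TL2.Rq_F (h : TL2 δ a b) {z : B} {e : L} {P : Matrix (Fin 2) (Fin 2) L}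
    (hz : Rq δ a b z e P) : z * FF δ a b = e • FF δ a b := by
  obtain ⟨β, γ, φ, ψ, rfl, rfl⟩ := hz
  unfold G5
  simp only [add_mul, smul_mul_assoc, one_mul, mul_assoc, h.a_F, h.b_F, mul_zero, smul_zero,
    add_zero]

/-- the sum of an element and its inverse -/
theorem Rq_sum [IsDomain L] (hd : δ ^ 2 - 1 ≠ 0) {z z' : B} {P : Matrix (Fin 2) (Fin 2) L}
    (hz : Rq δ a b z 1 P) (hz' : Rq δ a b z' 1 P.adjugate) :
    ∃ Φ : L, z + z' = P.trace • (1 : B) + Φ • FF δ a b := by
  obtain ⟨β, γ, φ, ψ, rfl, hP⟩ := hz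
  obtain ⟨β', γ', φ', ψ', rfl, hP'⟩ := hz'
  rw [Matrix.adjugate_fin_two] at hP'
  have e00 := congrFun (congrFun hP' 0) 0
  have e01 := congrFun (congrFun hP' 0) 1
  have e10 := congrFun (congrFun hP' 1) 0
  have e11 := congrFun (congrFun hP' 1) 1
  rw [hP] at e00 e01 e10 e11
  simp only [P5, Matrix.of_apply, Matrix.cons_val', Matrix.cons_val_zero, Matrix.cons_val_one,
    Matrix.cons_val_fin_one] at e00 e01 e10 e11
  have h1 : (δ ^ 2 - 1) * ((φ + φ') - (ψ + ψ')) = 0 := by
    linear_combination e00 - e11 - δ * e01 + δ * e10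
  have h2 : φ + φ' = ψ + ψ' := by
    rcases mul_eq_zero.1 h1 with h | h
    · exact absurd h hd
    · exact sub_eq_zero.1 h
  refine ⟨φ + φ', ?_⟩
  have ht : P.trace = 2 + (φ + φ') * (1 - δ ^ 2) := by
    rw [hP, Matrix.trace_fin_two]
    simp only [P5, Matrix.of_apply, Matrix.cons_val', Matrix.cons_val_zero, Matrix.cons_val_one,
      Matrix.cons_val_fin_one]
    linear_combination e00 - δ * e01
  rw [ht]
  unfold G5 FF
  match_scalars
  · ring
  · linear_combination -e01
  · linear_combination -e10 + δ * h2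
  · ring
  · linear_combination -h2

end generic

/-! ### words -/

/-- the `3`-braid words on the strands `1, 2, 3` of four strands -/
def up (x : Letter 3) : Letter 4 := (x.1, ⟨(x.2 : ℕ) + 1, by have := x.2.2; omega⟩)

/-- the matrices of the letters -/
noncomputable def mE (x : Letter 3) : Matrix (Fin 2) (Fin 2) ℤ[T;T⁻¹] :=
  if x.1 then (if x.2 = 0 then
      !![T 1 + T (-1) * (-(T 1) ^ 2 - (T (-1)) ^ 2), T (-1); 0, T 1]
      else !![T 1, 0; T (-1), T 1 + T (-1) * (-(T 1) ^ 2 - (T (-1)) ^ 2)])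
    else (if x.2 = 0 then
      !![T (-1) + T 1 * (-(T 1) ^ 2 - (T (-1)) ^ 2), T 1; 0, T (-1)]
      else !![T (-1), 0; T 1, T (-1) + T 1 * (-(T 1) ^ 2 - (T (-1)) ^ 2)])

/-- the loop value -/
noncomputable abbrev dd : ℤ[T;T⁻¹] := -(T 1) ^ 2 - (T (-1)) ^ 2

theorem expSum_cons (x : Letter 3) (w : List (Letter 3)) :
    expSum (x :: w) = (if x.1 then (1 : ℤ) else -1) + expSum w := by
  simp [expSum]

theorem Rq_word (w : List (Letter 3)) :
    Rq dd (EZ 4 1) (EZ 4 (1 + 1)) (zz (w.map up)) (T (expSum w)) (w.map mE).prod := by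
  induction w with
  | nil =>
    have : (T (expSum ([] : List (Letter 3))) : ℤ[T;T⁻¹]) = 1 := by
      simp [expSum]
    rw [this]
    exact Rq_one
  | cons x w ih =>
    rw [List.map_cons, zz_cons, List.map_cons, List.prod_cons, expSum_cons]
    have hT := tl2_EZ (m := 4) 1 (by norm_num)
    obtain ⟨p, i⟩ := x
    fin_cases i
    · cases p
      · have h := hT.Rq_a (T (-1)) (T 1) ih
        rw [← sZ_false, ← T_add] at h
        exact h
      · have h := hT.Rq_a (T 1) (T (-1)) ih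
        rw [← sZ_true, ← T_add] at h
        exact h
    · cases p
      · have h := hT.Rq_b (T (-1)) (T 1) ih
        rw [← sZ_false, ← T_add] at h
        exact h
      · have h := hT.Rq_b (T 1) (T (-1)) ih
        rw [← sZ_true, ← T_add] at h
        exact h

end Pool.Agent.Helper52_CV
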