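import Pool.Agent.Y463.SK.Defs

/-!
# The reduced Burau representation of the braid group on three strands

Braid words are lists of letters `σ_i^{±1}` (`Pool.Agent.W639.RB.Letter`); `t = T (-4)` (with
`A = T 1` this is `A^{-4}`, the variable of the Jones polynomial).
-/

set_option autoImplicit false

namespace Pool.Agent.Helper52_CV

open LaurentPolynomial Matrix Pool.Agent.W639.RB

/-- the reduced Burau matrices of the letters of `3`-braids, `t = T (-4)`, `t⁻¹ = T 4`:
`σ_0 ↦ (-t, 1; 0, 1)`, `σ_1 ↦ (1, 0; t, -t)`, and `σ_i⁻¹` is mapped to the inverse matrix -/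
noncomputable def burau (x : Letter 3) : Matrix (Fin 2) (Fin 2) ℤ[T;T⁻¹] :=
  if x.1 then (if x.2 = 0 then !![-T (-4), 1; 0, 1] else !![1, 0; T (-4), -T (-4)])
  else (if x.2 = 0 then !![-T 4, T 4; 0, 1] else !![1, 0; 1, -T 4])

/-- the trace of the reduced Burau matrix of the `3`-braid word `w`, a Laurent polynomial in `t` -/
noncomputable def burauTrace (w : List (Letter 3)) : ℤ[T;T⁻¹] := (w.map burau).prod.trace

/-- the values of the reduced Burau matrices at `t = -1`: `σ_0 ↦ (1, 1; 0, 1)`,
`σ_1 ↦ (1, 0; -1, 1)`, and `σ_i⁻¹` is mapped to the inverse matrix -/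
def slz (x : Letter 3) : Matrix (Fin 2) (Fin 2) ℤ :=
  if x.1 then (if x.2 = 0 then !![1, 1; 0, 1] else !![1, 0; -1, 1])
  else (if x.2 = 0 then !![1, -1; 0, 1] else !![1, 0; 1, 1])

/-- the exponent sum of the braid word `w` -/
def expSum {m : ℕ} (w : List (Letter m)) : ℤ := (w.map (fun x => if x.1 then (1 : ℤ) else -1)).sum

end Pool.Agent.Helper52_CV
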