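import Pool.Agent.Helper52_CV.Bu2

/-!
# The words, and their leading terms at `t = -1`
-/

set_option autoImplicit false

namespace Pool.Agent.Helper52_CV

open Finset LaurentPolynomial Pool.Agent.H891R2.Jones Pool.Agent.W639.RB
  Pool.Agent.Y463.SK Pool.Agent.Y463.MP

/-- `σ_2^{-6s}` -/
def wZ (s : ℕ) : List (Letter 4) := List.replicate (6 * s) (false, 2)

/-- `(σ_0 σ_1)^{6s}` -/
def wX (s : ℕ) : List (Letter 4) := thW s 0 1

/-- iterated commutators with `(σ_0 σ_1)^{6s}` -/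
def wU (s : ℕ) (v : List (Letter 4)) : ℕ → List (Letter 4)
  | 0 => v
  | (k + 1) => wX s ++ wU s v k ++ invW (wX s) ++ invW (wU s v k)

theorem wk_wU {s : ℕ} {d : ℤ[T;T⁻¹]} {v : List (Letter 4)} (hv : Wk d v) (k : ℕ) :
    Wk (xx s ^ k * d) (wU s v k) := by
  induction k with
  | zero =>
    rw [pow_zero, one_mul]
    exact hv
  | succ k ih =>
    have h := (Wk.comm (wk_three (m := 4) (s := s) 0 1 rfl) ih).wk
    rw [← mul_assoc, ← pow_succ'] at h
    exact h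

theorem st_wU {s : ℕ} {d : ℤ[T;T⁻¹]} {v : List (Letter 4)} (hv : Wk d v) (k : ℕ) :
    St (xx s ^ (k + 1) * d) (wU s v (k + 1)) := by
  have h := Wk.comm (wk_three (m := 4) (s := s) 0 1 rfl) (wk_wU (s := s) hv k)
  rw [← mul_assoc, ← pow_succ'] at h
  exact h

/-! ### the group of `σ_1^{6s}` and `σ_2^{6s}` -/

/-- `i` -/
noncomputable def io : ℂ := (z8 : ℂ) ^ 2

theorem io_sq : io * io = -1 := by
  unfold io; rw [← pow_add]; exact z8_four

theorem sq_pow {x : T8} (hx : x * x = 0) (τ : ℂ) (n : ℕ) :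
    ((1 : T8) + τ • x) ^ n = 1 + ((n : ℂ) * τ) • x := by
  induction n with
  | zero => simp
  | succ n ih =>
    rw [pow_succ, ih]
    simp only [mul_add, add_mul, smul_mul_assoc, mul_smul_comm, one_mul, mul_one, hx, smul_zero]
    push_cast
    module

theorem rd_true (i : Fin 3) (x : T8) (h : rd (EZ 4 i) = x) (hx : x * x = 0) (n : ℕ) :
    rd (zz (List.replicate n ((true, i) : Letter 4))) =
      ((z8 : ℂ) ^ n) • ((1 : T8) + (-(io * n)) • x) := by
  have e1 : rd (sZ 4 (true, (i : ℕ))) = (z8 : ℂ) • ((1 : T8) + (-io) • x) := by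
    rw [sZ_true, map_add, rd_smul, rd_smul, map_one, h, e8_T1, e8_Tm1, smul_add, smul_smul]
    congr 2
    have := z8_inv_sq
    have h2 := z8_mul
    unfold io
    linear_combination (z8 : ℂ) * this - (z8 : ℂ)⁻¹ * h2
  rw [zz_replicate, map_pow, e1, smul_pow, sq_pow hx]
  congr 3
  ring

theorem rd_false (i : Fin 3) (x : T8) (h : rd (EZ 4 i) = x) (hx : x * x = 0) (n : ℕ) :
    rd (zz (List.replicate n ((false, i) : Letter 4))) =
      (((z8 : ℂ)⁻¹) ^ n) • ((1 : T8) + (io * n) • x) := by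
  have e1 : rd (sZ 4 (false, (i : ℕ))) = ((z8 : ℂ)⁻¹) • ((1 : T8) + io • x) := by
    rw [sZ_false, map_add, rd_smul, rd_smul, map_one, h, e8_T1, e8_Tm1, smul_add, smul_smul]
    congr 2
    have h2 := z8_mul
    unfold io
    linear_combination (-(z8 : ℂ)) * h2
  rw [zz_replicate, map_pow, e1, smul_pow, sq_pow hx]
  congr 3
  ring

/-- the elements given by matrices of determinant one -/
noncomputable abbrev GM (p q s u : ℂ) : T8 := Gm g1 g2 1 p (-(io * q)) (io * s) u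

theorem GM_mul (p q s u p' q' s' u' : ℂ) :
    GM p q s u * GM p' q' s' u' =
      GM (p * p' + q * s') (p * q' + q * u') (s * p' + u * s') (s * q' + u * u') := by
  unfold GM
  rw [tlz.Gm_mul]
  have h := io_sq
  congr 1
  · ring
  · linear_combination (-q * s') * h
  · ring
  · ring
  · linear_combination (-s * q') * h

theorem GM_one : GM 1 0 0 1 = 1 := by
  unfold GM
  rw [mul_zero, neg_zero]
  exact Gm_one

theorem GM_inv (p q s u : ℂ) (h : p * u - q * s = 1) : GM u (-q) (-s) p * GM p q s u = 1 := by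
  rw [GM_mul, ← GM_one]
  congr 1
  · linear_combination h
  · ring
  · ring
  · linear_combination h

theorem rd_zz_inv (w : List (Letter 4)) : rd (zz w) * rd (zz (invW w)) = 1 := by
  rw [← map_mul, zz_inv, map_one]

theorem rd_inv_of (w : List (Letter 4)) {κ p q s u : ℂ} (hκ : κ ≠ 0) (h : p * u - q * s = 1)
    (hw : rd (zz w) = κ • GM p q s u) : rd (zz (invW w)) = κ⁻¹ • GM u (-q) (-s) p := by
  have h1 : (κ⁻¹ • GM u (-q) (-s) p) * rd (zz w) = 1 := by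
    rw [hw, smul_mul_assoc, mul_smul_comm, GM_inv p q s u h, smul_smul, inv_mul_cancel₀ hκ,
      one_smul]
  exact (left_inv_eq_right_inv h1 (rd_zz_inv w)).symm

/-- the words which are treated -/
def Good (v : List (Letter 4)) : Prop := ∃ (κ : ℂ) (p q s u : ℤ), κ ≠ 0 ∧ s ≠ 0 ∧
  p * u - q * s = 1 ∧ rd (zz v) = κ • GM p q s u

theorem good_Z (s : ℕ) (hs : 1 ≤ s) : Good (wZ s) := by
  refine ⟨((z8 : ℂ)⁻¹) ^ (6 * s), 1, 0, 6 * s, 1, pow_ne_zero _ (inv_ne_zero z8_ne),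
    by omega, by ring, ?_⟩
  have h := rd_false 2 g2 rfl tlz.cc (6 * s)
  unfold wZ
  rw [h]
  congr 1
  unfold GM Gm
  push_cast
  simp

/-- the powers of `σ_1` -/
def wC (c : ℕ) : List (Letter 4) := List.replicate c (true, 1)

theorem rd_C (c : ℕ) : rd (zz (wC c)) = ((z8 : ℂ) ^ c) • GM 1 c 0 1 := by
  have h := rd_true 1 g1 rfl tlz.bb c
  unfold wC
  rw [h]
  congr 1
  unfold GM Gm
  simp

/-- the elements given by integral matrices -/
noncomputable def GI (M : Matrix (Fin 2) (Fin 2) ℤ) : T8 := GM (M 0 0) (M 0 1) (M 1 0) (M 1 1)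

theorem GI_mul (M M' : Matrix (Fin 2) (Fin 2) ℤ) : GI (M * M') = GI M * GI M' := by
  unfold GI
  rw [GM_mul]
  simp only [Matrix.mul_apply, Fin.sum_univ_two, Int.cast_add, Int.cast_mul]

theorem GI_one : GI 1 = 1 := by
  unfold GI
  rw [← GM_one]
  simp

theorem GI_pow (M : Matrix (Fin 2) (Fin 2) ℤ) (n : ℕ) : GI (M ^ n) = GI M ^ n := by
  induction n with
  | zero => rw [pow_zero, pow_zero, GI_one]
  | succ n ih => rw [pow_succ, pow_succ, GI_mul, ih]

theorem rd_up (x : Letter 3) : ∃ κ : ℂ, κ ≠ 0 ∧ rd (zz [up x]) = κ • GI (slz x) := by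
  obtain ⟨b, i⟩ := x
  have h1 := rd_true 1 g1 rfl tlz.bb 1
  have h2 := rd_false 2 g2 rfl tlz.cc 1
  have h3 := rd_false 1 g1 rfl tlz.bb 1
  have h4 := rd_true 2 g2 rfl tlz.cc 1
  have e : ∀ x : Letter 4, List.replicate 1 x = [x] := fun x => rfl
  rw [e] at h1 h2 h3 h4
  fin_cases i <;> cases b
  · refine ⟨_, pow_ne_zero 1 (inv_ne_zero z8_ne), ?_⟩
    show rd (zz [((false, 1) : Letter 4)]) = _
    rw [h3]
    congr 1
    unfold GI GM Gm slz
    simp
  · refine ⟨_, pow_ne_zero 1 z8_ne, ?_⟩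
    show rd (zz [((true, 1) : Letter 4)]) = _
    rw [h1]
    congr 1
    unfold GI GM Gm slz
    simp
  · refine ⟨_, pow_ne_zero 1 (inv_ne_zero z8_ne), ?_⟩
    show rd (zz [((false, 2) : Letter 4)]) = _
    rw [h2]
    congr 1
    unfold GI GM Gm slz
    simp
  · refine ⟨_, pow_ne_zero 1 z8_ne, ?_⟩
    show rd (zz [((true, 2) : Letter 4)]) = _
    rw [h4]
    congr 1
    unfold GI GM Gm slz
    simp

theorem rd_upw (w : List (Letter 3)) : ∃ κ : ℂ, κ ≠ 0 ∧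
    rd (zz (w.map up)) = κ • GI (w.map slz).prod := by
  induction w with
  | nil =>
    refine ⟨1, one_ne_zero, ?_⟩
    rw [List.map_nil, List.map_nil, List.prod_nil, GI_one, one_smul]
    exact map_one rd
  | cons x w ih =>
    obtain ⟨κ, hκ, h⟩ := ih
    obtain ⟨μ, hμ, h'⟩ := rd_up x
    refine ⟨μ * κ, mul_ne_zero hμ hκ, ?_⟩
    have e : (x :: w).map up = [up x] ++ w.map up := rfl
    rw [e, zz_append, map_mul, h, h', List.map_cons, List.prod_cons, GI_mul, smul_mul_smul_comm]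

theorem det_slz (x : Letter 3) : (slz x).det = 1 := by
  obtain ⟨b, i⟩ := x
  fin_cases i <;> cases b <;> decide

theorem det_slw (w : List (Letter 3)) : ((w.map slz).prod).det = 1 := by
  induction w with
  | nil => simp
  | cons x w ih => rw [List.map_cons, List.prod_cons, Matrix.det_mul, ih, det_slz, mul_one]

theorem sl_pow (M : Matrix (Fin 2) (Fin 2) ℤ) (h : M.det = 1) (n : ℕ) :
    M ^ (n + 1) = Sg M.trace (n + 1) • M - Sg M.trace n • (1 : Matrix (Fin 2) (Fin 2) ℤ) := by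
  have h2 : M * M = M.trace • M - (1 : Matrix (Fin 2) (Fin 2) ℤ) := by
    rw [Matrix.det_fin_two] at h
    have e : ∀ i j, (M * M) i j = (M.trace • M - (1 : Matrix (Fin 2) (Fin 2) ℤ)) i j := by
      intro i j
      rw [Matrix.mul_apply, Fin.sum_univ_two, Matrix.sub_apply, Matrix.smul_apply,
        Matrix.trace_fin_two, smul_eq_mul]
      fin_cases i <;> fin_cases j
      · show M 0 0 * M 0 0 + M 0 1 * M 1 0 = (M 0 0 + M 1 1) * M 0 0 - 1
        linear_combination -h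
      · show M 0 0 * M 0 1 + M 0 1 * M 1 1 = (M 0 0 + M 1 1) * M 0 1 - 0
        ring
      · show M 1 0 * M 0 0 + M 1 1 * M 1 0 = (M 0 0 + M 1 1) * M 1 0 - 0
        ring
      · show M 1 0 * M 0 1 + M 1 1 * M 1 1 = (M 0 0 + M 1 1) * M 1 1 - 1
        linear_combination -h
    exact Matrix.ext e
  induction n with
  | zero => simp [Sg]
  | succ n ih =>
    rw [pow_succ, ih, sub_mul, smul_mul_assoc, smul_mul_assoc, one_mul, h2, Sg]
    module

theorem Sg_lt (τ : ℤ) (h : 3 ≤ |τ|) (n : ℕ) : |Sg τ n| < |Sg τ (n + 1)| := by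
  induction n with
  | zero => simp [Sg]
  | succ n ih =>
    rw [Sg]
    have h1 := abs_sub_abs_le_abs_sub (τ * Sg τ (n + 1)) (Sg τ n)
    rw [abs_mul] at h1
    have h2 : 0 < |Sg τ (n + 1)| := lt_of_le_of_lt (abs_nonneg _) ih
    nlinarith

theorem good_P (s : ℕ) (hs : 1 ≤ s) (w : List (Letter 3)) (hw : 3 ≤ |((w.map slz).prod).trace|) :
    Good (wP s w) := by
  obtain ⟨κ, hκ, h⟩ := rd_upw w
  have hdet := det_slw w
  set M := (w.map slz).prod with hM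
  obtain ⟨n, hn⟩ : ∃ n, 12 * s = n + 1 := ⟨12 * s - 1, by omega⟩
  have h1 : (M ^ (n + 1)) 1 0 = Sg M.trace (n + 1) * M 1 0 := by
    rw [sl_pow M hdet n, Matrix.sub_apply, Matrix.smul_apply, Matrix.smul_apply, smul_eq_mul,
      smul_eq_mul, Matrix.one_apply_ne (by decide), mul_zero, sub_zero]
  have h2 : Sg M.trace (n + 1) ≠ 0 := by
    have := Sg_lt M.trace hw n
    intro h0
    rw [h0, abs_zero] at this
    exact absurd this (not_lt.2 (abs_nonneg _))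
  have h3 : M 1 0 ≠ 0 := by
    intro h0
    rw [Matrix.det_fin_two, h0, mul_zero, sub_zero] at hdet
    rw [Matrix.trace_fin_two] at hw
    rcases Int.mul_eq_one_iff_eq_one_or_neg_one.1 hdet with ⟨h4, h5⟩ | ⟨h4, h5⟩
    · rw [h4, h5] at hw
      norm_num at hw
    · rw [h4, h5] at hw
      norm_num at hw
  have h4 : (M ^ (n + 1)).det = 1 := by rw [Matrix.det_pow, hdet, one_pow]
  rw [Matrix.det_fin_two] at h4
  refine ⟨κ ^ (n + 1), _, _, _, _, pow_ne_zero _ hκ, ?_, h4, ?_⟩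
  · rw [h1]
    exact mul_ne_zero h2 h3
  · unfold wP
    rw [zz_flatten, map_pow, h, smul_pow, ← GI_pow, hn]
    rfl

/-- the conjugate with a power of `σ_1` -/
theorem rd_conj (v : List (Letter 4)) (c : ℕ) {κ : ℂ} {p q r u : ℤ} (hκ : κ ≠ 0)
    (hv : rd (zz v) = κ • GM p q r u) :
    rd (zz (wC c ++ v ++ invW (wC c))) =
      κ • GM ((p + c * r : ℤ) : ℂ) ((q + c * (u - p) - c ^ 2 * r : ℤ) : ℂ) (r : ℤ)
        ((u - c * r : ℤ) : ℂ) := by
  have hz : (z8 : ℂ) ^ c ≠ 0 := pow_ne_zero _ z8_ne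
  have h2 := rd_inv_of (wC c) hz (by ring) (rd_C c)
  rw [zz_append, zz_append, map_mul, map_mul, rd_C, h2, hv]
  simp only [smul_mul_assoc, mul_smul_comm, GM_mul, smul_smul]
  congr 1
  · field_simp
  · congr 1 <;> (push_cast; ring)

/-- the lower left entry of the commutator -/
theorem good_comm (t v : List (Letter 4)) (ht : Good t) (hv : Good v) :
    ∃ c : ℕ, Good (t ++ (wC c ++ v ++ invW (wC c)) ++ invW t ++ invW (wC c ++ v ++ invW (wC c))) := by
  obtain ⟨κ, α, β, γ, ζ, hκ, hγ, hdt, ht⟩ := ht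
  obtain ⟨μ, p, q, r, u, hμ, hr, hdv, hv⟩ := hv
  -- the lower left entry
  let E : ℤ → ℤ := fun c => (γ * (p + c * r) + ζ * r) * (ζ * (u - c * r) + β * r) +
    (γ * (q + c * (u - p) - c ^ 2 * r) + ζ * (u - c * r)) * (-γ * (u - c * r) - α * r)
  have hE : E 3 - 3 * E 2 + 3 * E 1 - E 0 = -6 * γ ^ 2 * r ^ 2 := by
    simp only [E]
    ring
  have hne : ∃ c : ℕ, E c ≠ 0 := by
    by_contra hcon
    push Not at hcon
    have h0 := hcon 0
    have h1 := hcon 1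
    have h2 := hcon 2
    have h3 := hcon 3
    norm_num at h0 h1 h2 h3
    rw [h0, h1, h2, h3] at hE
    have : γ ^ 2 * r ^ 2 = 0 := by linarith
    rcases mul_eq_zero.1 this with h | h
    · exact hγ (pow_eq_zero_iff (two_ne_zero)|>.1 h)
    · exact hr (pow_eq_zero_iff (two_ne_zero)|>.1 h)
  obtain ⟨c, hc⟩ := hne
  have hv' := rd_conj v c hμ hv
  have hdt' : (α : ℂ) * ζ - β * γ = 1 := by exact_mod_cast hdt
  have hdv' : (((p + c * r : ℤ) : ℂ)) * ((u - c * r : ℤ) : ℂ) -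
      ((q + c * (u - p) - c ^ 2 * r : ℤ) : ℂ) * (r : ℤ) = 1 := by
    have : (p + c * r) * (u - c * r) - (q + c * (u - p) - c ^ 2 * r) * r = 1 := by
      linear_combination hdv
    exact_mod_cast this
  have hti := rd_inv_of t hκ hdt' ht
  have hvi := rd_inv_of (wC c ++ v ++ invW (wC c)) hμ hdv' hv'
  set p' : ℤ := p + c * r with hp'
  set q' : ℤ := q + c * (u - p) - c ^ 2 * r with hq'
  set u' : ℤ := u - c * r with hu'
  refine ⟨c, 1, (α * p' + β * r) * (ζ * u' + β * r) + (α * q' + β * u') * (-γ * u' - α * r),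
    (α * p' + β * r) * (-ζ * q' - β * p') + (α * q' + β * u') * (γ * q' + α * p'),
    (γ * p' + ζ * r) * (ζ * u' + β * r) + (γ * q' + ζ * u') * (-γ * u' - α * r),
    (γ * p' + ζ * r) * (-ζ * q' - β * p') + (γ * q' + ζ * u') * (γ * q' + α * p'),
    one_ne_zero, hc, ?_, ?_⟩
  · have e : p' * u' - q' * r = 1 := by rw [hp', hq', hu']; linear_combination hdv
    calc _ = (α * ζ - β * γ) ^ 2 * (p' * u' - q' * r) ^ 2 := by ring
      _ = 1 := by rw [hdt, e]; norm_num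
  · rw [zz_append, zz_append, zz_append, map_mul, map_mul, map_mul, ht, hv', hti, hvi]
    simp only [smul_mul_assoc, mul_smul_comm, GM_mul, smul_smul]
    congr 1
    · field_simp
    · congr 1 <;> (push_cast; ring)

theorem exist_step (L : List (ℤ[T;T⁻¹] × List (Letter 4))) (hL : ∀ x ∈ L, Wk x.1 x.2 ∧ Good x.2)
    (c0 : ℤ[T;T⁻¹]) (v0 : List (Letter 4)) (h0 : Wk c0 v0) (h1 : Good v0) :
    ∃ v, Wk ((L.map Prod.fst).prod * c0) v ∧ Good v := by
  induction L with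
  | nil => exact ⟨v0, by rw [List.map_nil, List.prod_nil, one_mul]; exact h0, h1⟩
  | cons x L ih =>
    obtain ⟨v, h2, h3⟩ := ih (fun y hy => hL y (List.mem_cons_of_mem _ hy))
    obtain ⟨h4, h5⟩ := hL x List.mem_cons_self
    obtain ⟨d, h6⟩ := good_comm x.2 v h5 h3
    refine ⟨_, ?_, h6⟩
    have h7 := (Wk.comm h4 (h2.conj (wC d))).wk
    rw [← mul_assoc] at h7
    rw [List.map_cons, List.prod_cons]
    exact h7

theorem exist_pow (L : List (ℤ[T;T⁻¹] × List (Letter 4))) (hL : ∀ x ∈ L, Wk x.1 x.2 ∧ Good x.2)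
    (c0 : ℤ[T;T⁻¹]) (v0 : List (Letter 4)) (h0 : Wk c0 v0) (h1 : Good v0) (k : ℕ) :
    ∃ v, Wk ((L.map Prod.fst).prod ^ k * c0) v ∧ Good v := by
  induction k with
  | zero => exact ⟨v0, by rw [pow_zero, one_mul]; exact h0, h1⟩
  | succ k ih =>
    obtain ⟨v, h2, h3⟩ := ih
    obtain ⟨v', h4, h5⟩ := exist_step L hL _ v h2 h3
    refine ⟨v', ?_, h5⟩
    rw [← mul_assoc, ← pow_succ'] at h4
    exact h4

/-- the words which are treated in the end -/
def Best (v : List (Letter 4)) : Prop := ∃ (κ : ℂ) (p q s u : ℤ), κ ≠ 0 ∧ p + s - 1 ≠ 0 ∧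
  p * u - q * s = 1 ∧ rd (zz v) = κ • GM p q s u

theorem exist_best {d : ℤ[T;T⁻¹]} {v : List (Letter 4)} (h1 : Wk d v) (h2 : Good v) :
    ∃ v, Wk d v ∧ Best v := by
  obtain ⟨κ, p, q, r, u, hκ, hr, hdet, hg⟩ := h2
  have key : ∀ e : ℕ, p + e * r + r - 1 ≠ 0 → ∃ v, Wk d v ∧ Best v := by
    intro e he
    refine ⟨wC e ++ v ++ invW (wC e), h1.conj (wC e), κ, p + e * r,
      q + e * (u - p) - e ^ 2 * r, r, u - e * r, hκ, he, ?_, rd_conj v e hκ hg⟩
    linear_combination hdet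
  by_cases h0 : p + (0 : ℕ) * r + r - 1 ≠ 0
  · exact key 0 h0
  · refine key 1 ?_
    push Not at h0
    push_cast at h0 ⊢
    intro h
    apply hr
    linarith

/-! ### commutators with the twist of three strands -/

/-- the idempotent -/
noncomputable abbrev P8 : T8 := PZ g0 g1

/-- the leading terms -/
noncomputable def Wf (V : T8) : ℕ → T8
  | 0 => V - P8
  | (k + 1) => Wf V k * P8 - P8 * Wf V k

theorem Wf_odd (V : T8) (i : ℕ) : Wf V (2 * i + 1) = V * P8 - P8 * V := by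
  induction i with
  | zero =>
    show (V - P8) * P8 - P8 * (V - P8) = _
    rw [mul_sub, sub_mul]
    abel
  | succ i ih =>
    have h := ad_cube' (x := V) (tlz.PP)
    show (Wf V (2 * i + 1) * P8 - P8 * Wf V (2 * i + 1)) * P8 -
      P8 * (Wf V (2 * i + 1) * P8 - P8 * Wf V (2 * i + 1)) = _
    rw [ih]
    exact h

theorem rd_FF : rd (FF (-(T 1) ^ 2 - (T (-1)) ^ 2 : ℤ[T;T⁻¹]) (EZ 4 0) (EZ 4 (0 + 1))) =
    (-1 : ℂ) • P8 := by
  have h1 : e8 ((-(T 1) ^ 2 - (T (-1)) ^ 2) ^ 2 - 1) = -1 := by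
    rw [map_sub, map_pow, e8_dl', map_one]
    norm_num
  unfold FF P8 PZ g0 g1
  rw [map_add rd, map_sub rd, rd_smul, rd_smul, h1, e8_dl', map_add rd (EZ 4 0 * EZ 4 (0 + 1)),
    map_mul rd, map_mul rd, map_one rd, zero_smul]
  simp only [zero_add]
  module

theorem rd_X (s : ℕ) : ∃ κ : ℂ, κ ≠ 0 ∧ rd (zz (wX s)) = κ • (1 : T8) ∧
    e8 (T (-1) ^ (6 * (2 * s))) = κ ∧ rd (zz (invW (wX s))) = κ⁻¹ • (1 : T8) := by
  refine ⟨((z8 : ℂ)⁻¹) ^ (6 * (2 * s)), pow_ne_zero _ (inv_ne_zero z8_ne), ?_, ?_, ?_⟩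
  · unfold wX
    rw [three_eq 0 1 rfl, rd_smul, map_pow, e8_Tm1, map_add, map_one, rd_smul, e8_xx, zero_smul,
      add_zero]
  · rw [map_pow, e8_Tm1]
  · have h1 : rd (zz (wX s)) = ((z8 : ℂ)⁻¹) ^ (6 * (2 * s)) • (1 : T8) := by
      unfold wX
      rw [three_eq 0 1 rfl, rd_smul, map_pow, e8_Tm1, map_add, map_one, rd_smul, e8_xx, zero_smul,
        add_zero]
    have h2 := rd_zz_inv (wX s)
    rw [h1, smul_mul_assoc, one_mul] at h2
    rw [← h2, smul_smul, inv_mul_cancel₀ (pow_ne_zero _ (inv_ne_zero z8_ne)), one_smul]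

theorem lead_step (s : ℕ) (x : ℤ[T;T⁻¹]) (w : List (Letter 4)) (Y : TLZ 4)
    (hY : FF (-(T 1) ^ 2 - (T (-1)) ^ 2 : ℤ[T;T⁻¹]) (EZ 4 0) (EZ 4 (0 + 1)) * zz w -
      zz w * FF (-(T 1) ^ 2 - (T (-1)) ^ 2 : ℤ[T;T⁻¹]) (EZ 4 0) (EZ 4 (0 + 1)) = x • Y) :
    ∃ Z : TLZ 4, zz (wX s ++ w ++ invW (wX s) ++ invW w) = 1 + (xx s * x) • Z ∧
      rd Z = rd Y * rd (zz (invW w)) := by
  obtain ⟨κ, hκ, h1, h2, h3⟩ := rd_X s
  refine ⟨(T (-1) ^ (6 * (2 * s)) : ℤ[T;T⁻¹]) • (Y * zz (invW (wX s)) * zz (invW w)), ?_, ?_⟩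
  · have e1 := three_eq (m := 4) (s := s) 0 1 rfl
    have e2 : zz (wX s) * zz w - zz w * zz (wX s) = (T (-1) ^ (6 * (2 * s)) * xx s * x) • Y := by
      unfold wX
      rw [e1, smul_mul_assoc, mul_smul_comm, ← smul_sub, add_mul, mul_add, one_mul, mul_one,
        add_sub_add_left_eq_sub, smul_mul_assoc, mul_smul_comm, ← smul_sub]
      have : ((0 : Fin (4 - 1)) : ℕ) = 0 := rfl
      rw [this, hY, smul_smul, smul_smul, mul_assoc]
    have e3 : zz w * zz (wX s) * zz (invW (wX s)) * zz (invW w) = 1 := by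
      rw [mul_assoc (zz w), zz_inv, mul_one, zz_inv]
    rw [zz_append, zz_append, zz_append]
    have e4 : zz (wX s) * zz w * zz (invW (wX s)) * zz (invW w) =
        zz w * zz (wX s) * zz (invW (wX s)) * zz (invW w) +
        (zz (wX s) * zz w - zz w * zz (wX s)) * zz (invW (wX s)) * zz (invW w) := by
      rw [sub_mul, sub_mul]
      abel
    rw [e4, e3, e2, smul_smul, smul_mul_assoc, smul_mul_assoc]
    congr 2
    ring
  · rw [rd_smul, h2, map_mul, map_mul, h3, mul_smul_comm, mul_one, smul_mul_assoc, smul_smul,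
      mul_inv_cancel₀ hκ, one_smul]

theorem wU_lead (s : ℕ) (v : List (Letter 4)) (k : ℕ) :
    ∃ Z : TLZ 4, zz (wU s v (k + 1)) = 1 + xx s ^ (k + 1) • Z ∧
      rd Z = Wf (rd (zz v) * P8 * rd (zz (invW v))) k := by
  induction k with
  | zero =>
    obtain ⟨Z, h1, h2⟩ := lead_step s 1 v _ (one_smul _ _).symm
    refine ⟨Z, ?_, ?_⟩
    · rw [pow_one]
      rw [mul_one] at h1
      exact h1
    · rw [h2, map_sub, map_mul, map_mul, rd_FF, sub_mul]
      have h3 := rd_zz_inv v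
      show _ = rd (zz v) * P8 * rd (zz (invW v)) - P8
      rw [mul_assoc ((-1 : ℂ) • P8), h3, mul_one, mul_smul_comm, smul_mul_assoc]
      module
  | succ k ih =>
    obtain ⟨Z, h1, h2⟩ := ih
    have hY : FF (-(T 1) ^ 2 - (T (-1)) ^ 2 : ℤ[T;T⁻¹]) (EZ 4 0) (EZ 4 (0 + 1)) * zz (wU s v (k + 1)) -
      zz (wU s v (k + 1)) * FF (-(T 1) ^ 2 - (T (-1)) ^ 2 : ℤ[T;T⁻¹]) (EZ 4 0) (EZ 4 (0 + 1)) =
      xx s ^ (k + 1) • (FF (-(T 1) ^ 2 - (T (-1)) ^ 2 : ℤ[T;T⁻¹]) (EZ 4 0) (EZ 4 (0 + 1)) * Z -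
        Z * FF (-(T 1) ^ 2 - (T (-1)) ^ 2 : ℤ[T;T⁻¹]) (EZ 4 0) (EZ 4 (0 + 1))) := by
      rw [h1, mul_add, add_mul, mul_one, one_mul, add_sub_add_left_eq_sub, mul_smul_comm,
        smul_mul_assoc, smul_sub]
    obtain ⟨Z', h3, h4⟩ := lead_step s _ _ _ hY
    refine ⟨Z', ?_, ?_⟩
    · rw [pow_succ' (xx s) (k + 1)]
      exact h3
    · have h5 : rd (zz (wU s v (k + 1))) = 1 := by
        rw [h1, map_add, map_one, rd_smul, map_pow, e8_xx, zero_pow (by omega), zero_smul, add_zero]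
      have h6 := rd_zz_inv (wU s v (k + 1))
      rw [h5, one_mul] at h6
      rw [h4, h6, mul_one, map_sub, map_mul, map_mul, rd_FF, h2]
      show _ = Wf _ k * P8 - P8 * Wf _ k
      rw [smul_mul_assoc, mul_smul_comm]
      module

/-! ### the trace of the leading term -/

/-- the braid `σ_0 σ_1 σ_2`, its closure is the unknot -/
def b0 : List (Letter 4) := [(true, 0), (true, 1), (true, 2)]

theorem zz_b0 : zz b0 = ((T 1 : ℤ[T;T⁻¹]) • (1 : TLZ 4) + (T (-1) : ℤ[T;T⁻¹]) • EZ 4 0) *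
    ((T 1 : ℤ[T;T⁻¹]) • (1 : TLZ 4) + (T (-1) : ℤ[T;T⁻¹]) • EZ 4 1) *
    ((T 1 : ℤ[T;T⁻¹]) • (1 : TLZ 4) + (T (-1) : ℤ[T;T⁻¹]) • EZ 4 2) := by
  unfold b0
  rw [zz_cons, zz_cons, zz_single, ← mul_assoc]
  show sZ 4 (true, 0) * sZ 4 (true, 1) * sZ 4 (true, 2) = _
  rw [sZ_true, sZ_true, sZ_true]

theorem rd_b0 : rd (zz b0) = ((z8 : ℂ) • (1 : T8) + (z8 : ℂ)⁻¹ • g0) *
    ((z8 : ℂ) • (1 : T8) + (z8 : ℂ)⁻¹ • g1) * ((z8 : ℂ) • (1 : T8) + (z8 : ℂ)⁻¹ • g2) := by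
  rw [zz_b0, map_mul, map_mul, map_add, map_add, map_add, rd_smul, rd_smul, rd_smul, rd_smul,
    map_one, e8_T1, e8_Tm1]
  rfl

theorem trace_ne (v : List (Letter 4)) (hv : Best v) (i : ℕ) (Z : TLZ 4)
    (hZ : rd Z = Wf (rd (zz v) * P8 * rd (zz (invW v))) (2 * i + 1)) :
    e8 (F4 (zz b0 * Z)) ≠ 0 := by
  obtain ⟨κ, p, q, r, u, hκ, hne, hdet, hg⟩ := hv
  have hdet' : (p : ℂ) * u - q * r = 1 := by exact_mod_cast hdet
  have hg' := rd_inv_of v hκ hdet' hg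
  have h1 : rd (zz v) * P8 * rd (zz (invW v)) =
      Gm g1 g2 1 p (-(io * q)) (io * r) u * P8 * Gm g1 g2 1 u (-(io * -q)) (-(io * r)) p := by
    rw [hg, hg']
    have : io * -(r : ℂ) = -(io * r) := by ring
    unfold GM
    rw [this, smul_mul_assoc, smul_mul_assoc, mul_smul_comm, smul_smul, mul_inv_cancel₀ hκ, one_smul]
  have h2 := tlz.trace Ps Ps_comm Ps_g2 Ps_g012 z8_mul z8_four (p : ℂ) (-(io * q)) (io * r) u
    (-(io * -q))
  rw [mul_sub, map_sub] at h2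
  rw [← Ps_rd, map_mul, hZ, Wf_odd, h1, mul_sub, map_sub, rd_b0]
  intro h0
  have h3 : 2 * (z8 : ℂ)⁻¹ * (io * r) + 2 * z8 * ((p : ℂ) - 1) = 2 * z8 * ((r + p - 1 : ℤ) : ℂ) := by
    push_cast
    unfold io
    have := z8_mul
    linear_combination (2 * (z8 : ℂ) * r) * this
  have h4 : 2 * (z8 : ℂ) * ((r + p - 1 : ℤ) : ℂ) = 0 := by
    rw [← h3]
    rw [← h2]
    rw [sub_eq_zero] at h0 ⊢
    exact h0.symm
  refine mul_ne_zero (mul_ne_zero two_ne_zero z8_ne) ?_ h4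
  rw [Int.cast_ne_zero]
  omega

end Pool.Agent.Helper52_CV
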