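import Pool.Agent.Helper52_CV.Fam

/-!
# The final steps
-/

set_option autoImplicit false

namespace Pool.Agent.Helper52_CV

open Finset LaurentPolynomial Pool.Agent.H891R2.Jones Pool.Agent.W639.RB
  Pool.Agent.Y463.SK Pool.Agent.Y463.MP

/-! ### the moduli -/

theorem T_pow' (a : ℤ) (n : ℕ) : (T a : ℤ[T;T⁻¹]) ^ n = T (n * a) := T_pow a n

theorem yy_mul (s : ℕ) : (1 + T (-4)) * yy s = T (-2) * (1 - T (-4) ^ (6 * s) : ℤ[T;T⁻¹]) := by
  have h := mul_neg_geom_sum (-T (-4) : ℤ[T;T⁻¹]) (6 * s)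
  have h2 : (-T (-4) : ℤ[T;T⁻¹]) ^ (6 * s) = T (-4) ^ (6 * s) := by
    exact Even.neg_pow ⟨3 * s, by ring⟩ _
  rw [h2] at h
  unfold yy
  linear_combination (T (-2) : ℤ[T;T⁻¹]) * h

theorem xx_mul (s : ℕ) : (1 + T (-4) + T (-4) ^ 2) * xx s =
    T (-4) * T 4 ^ (6 * s) * (1 - T (-4) ^ (6 * s) : ℤ[T;T⁻¹]) := by
  have h := cq_mul (L := ℤ[T;T⁻¹]) (δ := -(T 1) ^ 2 - (T (-1)) ^ 2) TT rfl (2 * s)
  have e1 : (1 + T (-4) + T (-4) ^ 2 : ℤ[T;T⁻¹]) = T (-4) * ((-(T 1) ^ 2 - (T (-1)) ^ 2) ^ 2 - 1) := by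
    have e : (T (-4) : ℤ[T;T⁻¹]) = T (-1) ^ 4 := by rw [T_pow]; norm_num
    rw [e]
    have := TT
    generalize (T 1 : ℤ[T;T⁻¹]) = a at *
    generalize (T (-1) : ℤ[T;T⁻¹]) = a' at *
    linear_combination ((-1) * a ^ 3 * a' ^ 3 + (-2) * a ^ 1 * a' ^ 5 + (-1) * a ^ 2 * a' ^ 2 + (-2) * a ^ 0 * a' ^ 4 + (-1) * a ^ 1 * a' ^ 1 + (-1) * a ^ 0 * a' ^ 0) * this
  have e2 : (T 4 : ℤ[T;T⁻¹]) ^ (6 * s) * T (-4) ^ (6 * s) = 1 := by
    rw [← mul_pow, ← T_add]; norm_num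
  have e3 : ((T 1 : ℤ[T;T⁻¹]) ^ 12) ^ (2 * s) = T 4 ^ (6 * s) := by
    rw [← pow_mul, T_pow, T_pow]
    congr 1
    push_cast
    ring
  rw [e3] at h
  unfold xx
  rw [e1]
  linear_combination (T (-4) : ℤ[T;T⁻¹]) * h + T (-4) * e2

theorem geom_six (x : ℤ[T;T⁻¹]) (s : ℕ) :
    ∑ j ∈ range (6 * s), x ^ j = (∑ j ∈ range 6, x ^ j) * ∑ i ∈ range s, (x ^ 6) ^ i := by
  induction s with
  | zero => simp
  | succ s ih =>
    rw [show 6 * (s + 1) = 6 * s + 6 by ring, sum_range_add, ih, sum_range_succ _ s, mul_add]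
    congr 1
    rw [sum_mul]
    refine sum_congr rfl fun j _ => ?_
    rw [← pow_mul, ← pow_add]
    congr 1
    ring

/-- `1 - t^{6s}` divides the product of the moduli -/
theorem dvd_yx (s : ℕ) : (1 - T (-4) ^ (6 * s) : ℤ[T;T⁻¹]) ∣ yy s * xx s := by
  have h1 : yy s = (1 + T (-4) + T (-4) ^ 2) *
      (T (-2) * (1 - T (-4)) * (1 - T (-4) + T (-4) ^ 2) *
        ∑ i ∈ range s, ((-T (-4) : ℤ[T;T⁻¹]) ^ 6) ^ i) := by
    unfold yy
    rw [geom_six]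
    have : ∑ j ∈ range 6, (-T (-4) : ℤ[T;T⁻¹]) ^ j =
        (1 + T (-4) + T (-4) ^ 2) * ((1 - T (-4)) * (1 - T (-4) + T (-4) ^ 2)) := by
      simp only [sum_range_succ, sum_range_zero]
      ring
    rw [this]
    ring
  have h2 := xx_mul s
  refine ⟨T (-4) * T 4 ^ (6 * s) * (T (-2) * (1 - T (-4)) * (1 - T (-4) + T (-4) ^ 2) *
        ∑ i ∈ range s, ((-T (-4) : ℤ[T;T⁻¹]) ^ 6) ^ i), ?_⟩
  rw [h1]
  linear_combination (T (-2) * (1 - T (-4)) * (1 - T (-4) + T (-4) ^ 2) *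
        ∑ i ∈ range s, ((-T (-4) : ℤ[T;T⁻¹]) ^ 6) ^ i) * h2

theorem dvd_one_sub (N s : ℕ) (h : N ∣ 6 * s) :
    (1 - T (-4) ^ N : ℤ[T;T⁻¹]) ∣ 1 - T (-4) ^ (6 * s) := by
  obtain ⟨d, hd⟩ := h
  rw [hd, pow_mul]
  have := sub_dvd_pow_sub_pow (1 : ℤ[T;T⁻¹]) (T (-4) ^ N) d
  rwa [one_pow] at this

/-- evaluation at `A = 2` -/
noncomputable def e2 : ℤ[T;T⁻¹] →+* ℚ :=
  LaurentPolynomial.eval₂ (Int.castRingHom ℚ) (Units.mk0 2 (by norm_num))

theorem xx_ne (s : ℕ) (hs : 1 ≤ s) : xx s ≠ 0 := by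
  intro h
  have h1 : e2 (xx s) = 0 := by rw [h, map_zero]
  unfold xx cq at h1
  rw [map_mul, map_sub, map_pow, map_pow, map_sum] at h1
  have h2 : e2 (T 1) = 2 := by
    unfold e2
    rw [LaurentPolynomial.eval₂_T]
    simp
  simp only [map_pow, h2] at h1
  have h3 : (0 : ℚ) < ∑ x ∈ range (2 * s), ((2 : ℚ) ^ 12) ^ x :=
    sum_pos (fun i _ => by positivity) ⟨0, by rw [mem_range]; omega⟩
  have h4 : (0 : ℚ) < (2 ^ 8 - 2 ^ 4) * ∑ x ∈ range (2 * s), ((2 : ℚ) ^ 12) ^ x :=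
    mul_pos (by norm_num) h3
  exact absurd h1 h4.ne'

/-! ### the unknot -/

theorem F4_b0 : F4 (zz b0) = -T 9 := by
  have h1 : zz b0 = (T 1 ^ 3 : ℤ[T;T⁻¹]) • (1 : TLZ 4) + (T 1 ^ 2 * T (-1) : ℤ[T;T⁻¹]) • EZ 4 0 +
      (T 1 ^ 2 * T (-1) : ℤ[T;T⁻¹]) • EZ 4 1 + (T 1 ^ 2 * T (-1) : ℤ[T;T⁻¹]) • EZ 4 2 +
      (T 1 * T (-1) ^ 2 : ℤ[T;T⁻¹]) • (EZ 4 0 * EZ 4 1) +
      (T 1 * T (-1) ^ 2 : ℤ[T;T⁻¹]) • (EZ 4 1 * EZ 4 2) +
      (T 1 * T (-1) ^ 2 : ℤ[T;T⁻¹]) • (EZ 4 0 * EZ 4 2) +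
      (T (-1) ^ 3 : ℤ[T;T⁻¹]) • (EZ 4 0 * EZ 4 1 * EZ 4 2) := by
    rw [zz_b0]
    simp only [mul_add, add_mul, smul_mul_assoc, mul_smul_comm, one_mul, mul_one]
    module
  rw [h1]
  simp only [LinearMap.map_add, LinearMap.map_smul, F4_one, F4_E0, F4_E1, F4_E2, F4_E01, F4_E12,
    F4_E02, F4_E012, smul_eq_mul]
  have e : (T 9 : ℤ[T;T⁻¹]) = T 1 ^ 9 := by rw [T_pow]; norm_num
  rw [e]
  unfold dl
  have := TT
  generalize (T 1 : ℤ[T;T⁻¹]) = a at *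
  generalize (T (-1) : ℤ[T;T⁻¹]) = a' at *
  linear_combination ((-3) * a ^ 6 * a' ^ 1 + (-3) * a ^ 4 * a' ^ 3 + (-1) * a ^ 2 * a' ^ 5 + (3) * a ^ 3 * a' ^ 2 + (2) * a ^ 1 * a' ^ 4 + (-1) * a ^ 0 * a' ^ 3) * this

theorem writhe_b0 : (dia (braidClosure 4) b0).writhe = 3 := by
  have h := (draw_up (toN b0) (braidClosure 4) (toN_lt b0) (fun _ => rfl)).2
  have h2 : (dia (braidClosure 4) b0).writhe = owr (draw (braidClosure 4) (toN b0)) := rfl
  have h3 : owr (braidClosure 4) = 0 := rfl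
  rw [h2, h, h3]
  rfl

theorem fPoly_b0 : (dia (braidClosure 4) b0).fPoly = 1 := by
  unfold Diagram.fPoly
  rw [writhe_b0, bracket_dia (by norm_num)]
  have h : PhiS (by norm_num) (braidClosure 4) (zz b0) = -T 9 := F4_b0
  rw [h, if_neg (by decide)]
  have : (T (-3 * 3) : ℤ[T;T⁻¹]) * T 9 = 1 := by rw [← T_add]; norm_num
  linear_combination this

/-! ### the family -/

theorem fPoly_fam {s : ℕ} {d : ℤ[T;T⁻¹]} {v : List (Letter 4)} (hd : Wk d v) (hv : Best v)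
    (i : ℕ) : ∃ H : ℤ[T;T⁻¹], e8 H ≠ 0 ∧
    (dia (braidClosure 4) (b0 ++ wU s v (2 * i + 2))).fPoly =
      1 - T (-9) * xx s ^ (2 * i + 2) * H := by
  obtain ⟨Z, h1, h2⟩ := wU_lead s v (2 * i + 1)
  refine ⟨F4 (zz b0 * Z), trace_ne v hv i Z h2, ?_⟩
  have h4 := (st_wU (s := s) hd (2 * i + 1)).cost
  have hw : (dia (braidClosure 4) (b0 ++ wU s v (2 * i + 2))).writhe = 3 := by
    have := writhe_dia (braidClosure 4) b0
    rw [writhe_b0] at this
    rw [writhe_dia, toN_append, costS_append, h4, add_zero]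
    exact this.symm
  have hb : (dia (braidClosure 4) (b0 ++ wU s v (2 * i + 2))).bracket =
      -T 9 + xx s ^ (2 * i + 2) * F4 (zz b0 * Z) := by
    rw [bracket_dia (by norm_num), zz_append]
    show F4 (zz b0 * zz (wU s v (2 * i + 1 + 1))) = _
    rw [h1, mul_add, mul_one, map_add, F4_b0, mul_smul_comm, map_smul, smul_eq_mul]
  unfold Diagram.fPoly
  rw [hw, hb, if_neg (by decide)]
  have : (T (-3 * 3) : ℤ[T;T⁻¹]) * T 9 = 1 := by rw [← T_add]; norm_num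
  have e : (T (-3 * 3) : ℤ[T;T⁻¹]) = T (-9) := by norm_num
  rw [e] at this ⊢
  linear_combination this

theorem fam_inj {s : ℕ} (hs : 1 ≤ s) {d : ℤ[T;T⁻¹]} {v : List (Letter 4)} (hd : Wk d v)
    (hv : Best v) (k : ℕ) : Function.Injective
    (fun i : ℕ => (dia (braidClosure 4) (b0 ++ wU s v (2 * (i + k) + 2))).fPoly) := by
  refine Function.Injective.of_lt_imp_ne fun i i' hi h => ?_
  obtain ⟨H, hH, h1⟩ := fPoly_fam (s := s) hd hv (i + k)
  obtain ⟨H', hH', h2⟩ := fPoly_fam (s := s) hd hv (i' + k)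
  rw [h1, h2] at h
  obtain ⟨d, rfl⟩ := Nat.exists_eq_add_of_lt hi
  have e : xx s ^ (2 * (i + d + 1 + k) + 2) = xx s ^ (2 * (i + k) + 2) * xx s ^ (2 * d + 2) := by
    rw [← pow_add]; congr 1; ring
  have hT : (T 9 : ℤ[T;T⁻¹]) * T (-9) = 1 := by rw [← T_add]; norm_num
  have h3 : xx s ^ (2 * (i + k) + 2) * (H - xx s ^ (2 * d + 2) * H') = 0 := by
    rw [e] at h
    linear_combination (-T 9) * h - xx s ^ (2 * (i + k) + 2) * (H - xx s ^ (2 * d + 2) * H') * hT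
  rcases mul_eq_zero.1 h3 with h4 | h4
  · exact pow_ne_zero _ (xx_ne s hs) h4
  · apply hH
    rw [sub_eq_zero] at h4
    rw [h4, map_mul, map_pow, e8_xx, zero_pow (by omega), zero_mul]

/-! ### knots -/

theorem permW_append {m : ℕ} (v w : List (Letter m)) : permW (v ++ w) = permW v * permW w := by
  simp [permW]

theorem permW_one {m : ℕ} (w : List (Letter m)) (h : permL (toN w) = 1) : permW w = 1 := by
  apply Equiv.ext
  intro i
  have h1 := (permL_toN w).1 i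
  rw [h, Equiv.Perm.one_apply] at h1
  exact Fin.ext h1.symm

theorem knot_b0 (u : List (Letter 4)) (h : permL (toN u) = 1) :
    ∀ x y, (permW (b0 ++ u)).SameCycle x y := by
  rw [permW_append, permW_one u h, mul_one]
  have h1 : ∀ i : Fin 4, (permW b0) i = i + 1 := by decide
  have h2 : ∀ i : Fin 4, (permW b0).SameCycle i (i + 1) := fun i =>
    ⟨1, by rw [zpow_one]; exact h1 i⟩
  have h3 : ∀ j : Fin 4, (permW b0).SameCycle 0 j := by
    intro j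
    fin_cases j
    · exact Equiv.Perm.SameCycle.refl _ _
    · exact h2 0
    · exact (h2 0).trans (h2 1)
    · exact ((h2 0).trans (h2 1)).trans (h2 2)
  intro i j
  exact (h3 i).symm.trans (h3 j)

theorem closure_closed (m : ℕ) : (braidClosure m).close.IsClosed := by
  classical
  rw [closed_iff]
  have h : ∀ x : Fin m, (univ.filter (fun j : Fin m => j = x)).card = 1 := by
    intro x
    rw [Finset.filter_eq' univ x, if_pos (Finset.mem_univ _), Finset.card_singleton]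
  refine ⟨fun x => ?_, fun x => ?_⟩
  · simp only [Sst, braidClosure, id, List.map_nil, List.sum_nil]
    simp <;> convert h x
  · simp only [Sst, braidClosure, Outer.rev, id, List.map_nil, List.sum_nil]
    simp <;> convert h x

theorem closed_all (w : List (Letter 4)) : (dia (braidClosure 4) w).IsClosed :=
  draw_closed (toN w) (braidClosure 4) (toN_lt w) (fun _ => rfl) (closure_closed 4)

/-! ### the result -/

/-- the modulus -/
noncomputable def Md (N : ℕ) (W : List (List (Letter 3))) : ℤ[T;T⁻¹] :=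
  (1 - T (-4) ^ N) *
    (W.map fun w => (Polynomial.Chebyshev.S ℤ[T;T⁻¹] ((N : ℤ) - 1)).eval (burauTrace w)).prod

theorem prod_dvd (N : ℕ) (W : List (List (Letter 3))) :
    (W.map fun w => (Polynomial.Chebyshev.S ℤ[T;T⁻¹] ((N : ℤ) - 1)).eval (burauTrace w)).prod ∣
      (W.map fun w => Sg (burauTrace w) (6 * N)).prod := by
  induction W with
  | nil => simp
  | cons w W ih =>
    rw [List.map_cons, List.prod_cons, List.map_cons, List.prod_cons]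
    refine mul_dvd_mul ?_ ih
    rw [← Sg_cheb, mul_comm 6 N]
    exact Sg_dvd _ _ _

theorem main (N k : ℕ) (hN : 1 ≤ N) (W : List (List (Letter 3)))
    (hW : ∀ w ∈ W, expSum w = 0 ∧ 3 ≤ |((w.map slz).prod).trace|) :
    ∃ u : ℕ → List (Letter 4),
    (∀ i, IsPure (u i)) ∧
    (∀ i (O : Outer 4) (v w : List (Letter 4)),
      Md N W ^ k ∣ (dia O (v ++ u i ++ w)).fPoly - (dia O (v ++ w)).fPoly) ∧
    (∀ i, (dia (braidClosure 4) (b0 ++ u i)).IsClosed ∧ (∀ x y, (permW (b0 ++ u i)).SameCycle x y) ∧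
      Md N W ^ k ∣ (dia (braidClosure 4) (b0 ++ u i)).fPoly - 1) ∧
    Function.Injective (fun i => (dia (braidClosure 4) (b0 ++ u i)).fPoly) := by
  set L : List (ℤ[T;T⁻¹] × List (Letter 4)) :=
    (yy N, wZ N) :: W.map (fun w => (Sg (burauTrace w) (6 * N), wP N w)) with hLdef
  have hL : ∀ x ∈ L, Wk x.1 x.2 ∧ Good x.2 := by
    intro x hx
    rw [hLdef, List.mem_cons] at hx
    rcases hx with rfl | hx
    · exact ⟨wk_two false 2, good_Z N hN⟩
    · obtain ⟨w, hw, rfl⟩ := List.mem_map.1 hx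
      exact ⟨wk_P N w (hW w hw).1, good_P N hN w (hW w hw).2⟩
  have hprod : (L.map Prod.fst).prod = yy N * (W.map fun w => Sg (burauTrace w) (6 * N)).prod := by
    rw [hLdef, List.map_cons, List.prod_cons, List.map_map]
    rfl
  obtain ⟨v0, hv1, hv2⟩ := exist_pow L hL (yy N) (wZ N) (wk_two false 2) (good_Z N hN) k
  obtain ⟨v, hd, hv⟩ := exist_best hv1 hv2
  rw [hprod] at hd
  have hdvd : ∀ j : ℕ, k ≤ j → Md N W ^ k ∣
      xx N ^ j * ((yy N * (W.map fun w => Sg (burauTrace w) (6 * N)).prod) ^ k * yy N) := by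
    intro j hj
    obtain ⟨j', rfl⟩ := Nat.exists_eq_add_of_le hj
    have e : xx N ^ (k + j') *
        ((yy N * (W.map fun w => Sg (burauTrace w) (6 * N)).prod) ^ k * yy N) =
        ((yy N * xx N) * (W.map fun w => Sg (burauTrace w) (6 * N)).prod) ^ k *
          (xx N ^ j' * yy N) := by
      rw [mul_pow, mul_pow, mul_pow, pow_add]
      ring
    rw [e]
    refine Dvd.dvd.mul_right (pow_dvd_pow_of_dvd ?_ k) _
    exact mul_dvd_mul ((dvd_one_sub N N ⟨6, by ring⟩).trans (dvd_yx N)) (prod_dvd N W)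
  have hst : ∀ i : ℕ, St (xx N ^ (2 * (i + k) + 2) *
      ((yy N * (W.map fun w => Sg (burauTrace w) (6 * N)).prod) ^ k * yy N))
      (wU N v (2 * (i + k) + 2)) := fun i => st_wU (s := N) hd (2 * (i + k) + 1)
  have hmove : ∀ (i : ℕ) (O : Outer 4) (a b : List (Letter 4)), Md N W ^ k ∣
        (dia O (a ++ wU N v (2 * (i + k) + 2) ++ b)).fPoly - (dia O (a ++ b)).fPoly := by
    intro i O a b
    obtain ⟨G, hG⟩ := fPoly_move (by norm_num) (hst i) O a b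
    rw [hG, add_sub_cancel_left]
    exact Dvd.dvd.mul_right (hdvd _ (by omega)) _
  refine ⟨fun i => wU N v (2 * (i + k) + 2),
    fun i => permW_one _ (hst i).perm, hmove,
    fun i => ⟨closed_all _, knot_b0 _ (hst i).perm, ?_⟩, fam_inj hN hd hv k⟩
  have h := hmove i (braidClosure 4) b0 []
  rwa [List.append_nil, List.append_nil, fPoly_b0] at h

end Pool.Agent.Helper52_CV
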