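import Pool.Agent.Helper52_CV.Word

/-!
# Full twists of three strands in the Temperley–Lieb algebra
-/

set_option autoImplicit false
set_option linter.unusedSimpArgs false

namespace Pool.Agent.Helper52_CV

open Finset

section generic

variable {L B : Type*} [CommRing L] [Ring B] [Algebra L B]

/-- the Temperley–Lieb relations of two neighbours -/
structure TL2 (δ : L) (a b : B) : Prop where
  aa : a * a = δ • a
  bb : b * b = δ • b
  aba : a * b * a = a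
  bab : b * a * b = b

/-- a multiple of the Jones–Wenzl projection -/
def FF (δ : L) (a b : B) : B := (δ ^ 2 - 1) • (1 : B) - δ • (a + b) + (a * b + b * a)

variable {δ A A' : L} {a b : B}

theorem TL2.a_F (h : TL2 δ a b) : a * FF δ a b = 0 := by
  unfold FF
  have h1 : a * (b * a) = a := by rw [← mul_assoc, h.aba]
  have h2 : a * (a * b) = δ • (a * b) := by rw [← mul_assoc, h.aa, smul_mul_assoc]
  simp only [mul_add, mul_sub, mul_smul_comm, mul_one, h1, h2, h.aa]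
  module

theorem TL2.b_F (h : TL2 δ a b) : b * FF δ a b = 0 := by
  unfold FF
  have h1 : b * (a * b) = b := by rw [← mul_assoc, h.bab]
  have h2 : b * (b * a) = δ • (b * a) := by rw [← mul_assoc, h.bb, smul_mul_assoc]
  simp only [mul_add, mul_sub, mul_smul_comm, mul_one, h1, h2, h.bb]
  module

theorem TL2.F_a (h : TL2 δ a b) : FF δ a b * a = 0 := by
  unfold FF
  have h2 : b * a * a = δ • (b * a) := by rw [mul_assoc, h.aa, mul_smul_comm]
  simp only [add_mul, sub_mul, smul_mul_assoc, one_mul, h2, h.aa, h.aba]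
  module

theorem TL2.F_b (h : TL2 δ a b) : FF δ a b * b = 0 := by
  unfold FF
  have h2 : a * b * b = δ • (a * b) := by rw [mul_assoc, h.bb, mul_smul_comm]
  simp only [add_mul, sub_mul, smul_mul_assoc, one_mul, h2, h.bb, h.bab]
  module

theorem TL2.F_F (h : TL2 δ a b) : FF δ a b * FF δ a b = (δ ^ 2 - 1) • FF δ a b := by
  nth_rewrite 1 [FF]
  rw [add_mul, sub_mul, smul_mul_assoc, one_mul, smul_mul_assoc, add_mul, add_mul, mul_assoc,
    mul_assoc, h.a_F, h.b_F]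
  simp

theorem TL2.three (h : TL2 δ a b) (hA : A * A' = 1) (hδ : δ = -A ^ 2 - A' ^ 2) :
    ((A • (1 : B) + A' • a) * (A • (1 : B) + A' • b)) ^ 3 =
      A' ^ 6 • ((1 : B) + (A ^ 8 - A ^ 4) • FF δ a b) := by
  have e1 : (A • (1 : B) + A' • a) * (A • (1 : B) + A' • b) =
      A ^ 2 • (1 : B) + a + b + A' ^ 2 • (a * b) := by
    simp only [mul_add, add_mul, smul_mul_assoc, mul_smul_comm, one_mul, mul_one]
    match_scalars
    · ring
    · linear_combination hA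
    · linear_combination hA
    · ring
  have h1 : a * (b * a) = a := by rw [← mul_assoc, h.aba]
  have h2 : b * (a * b) = b := by rw [← mul_assoc, h.bab]
  have h3 : ∀ z : B, a * (b * (a * z)) = a * z := fun z => by
    rw [← mul_assoc, ← mul_assoc, h.aba]
  have h4 : ∀ z : B, b * (a * (b * z)) = b * z := fun z => by
    rw [← mul_assoc, ← mul_assoc, h.bab]
  have h5 : ∀ z : B, a * (a * z) = δ • (a * z) := fun z => by
    rw [← mul_assoc, h.aa, smul_mul_assoc]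
  have h6 : ∀ z : B, b * (b * z) = δ • (b * z) := fun z => by
    rw [← mul_assoc, h.bb, smul_mul_assoc]
  have e2 : (A ^ 2 • (1 : B) + a + b + A' ^ 2 • (a * b)) *
      (A ^ 2 • (1 : B) + a + b + A' ^ 2 • (a * b)) =
      A ^ 4 • (1 : B) + A ^ 2 • (a + b) + (1 - A' ^ 4) • (a * b) + b * a := by
    simp only [mul_add, add_mul, smul_mul_assoc, mul_smul_comm, one_mul, mul_one, mul_assoc, h1,
      h2, h3, h4, h5, h6, h.aa, h.bb, smul_smul, smul_add]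
    subst hδ
    match_scalars
    · ring
    · linear_combination (0 : L) * hA
    · linear_combination (0 : L) * hA
    · linear_combination (0 : L) * hA
    · ring
  rw [pow_succ, pow_two, e1, e2]
  unfold FF
  simp only [mul_add, add_mul, smul_mul_assoc, mul_smul_comm, one_mul, mul_one, mul_assoc, h1,
    h2, h3, h4, h5, h6, h.aa, h.bb, smul_smul, smul_add, smul_sub]
  subst hδ
  match_scalars
  · linear_combination ((-1) * A ^ 7 * A' ^ 9 + (-2) * A ^ 9 * A' ^ 7 + (-1) * A ^ 11 * A' ^ 5 + (-1) * A ^ 6 * A' ^ 8 + (-2) * A ^ 8 * A' ^ 6 + (-1) * A ^ 10 * A' ^ 4 + (1) * A ^ 3 * A' ^ 9 + (1) * A ^ 5 * A' ^ 7 + (-1) * A ^ 9 * A' ^ 3 + (1) * A ^ 2 * A' ^ 8 + (1) * A ^ 4 * A' ^ 6 + (-1) * A ^ 8 * A' ^ 2 + (1) * A ^ 1 * A' ^ 7 + (-1) * A ^ 7 * A' ^ 1 + (1) * A ^ 0 * A' ^ 6 + (-1) * A ^ 6 * A' ^ 0) * hA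
  · linear_combination ((-1) * A ^ 7 * A' ^ 7 + (-1) * A ^ 9 * A' ^ 5 + (-1) * A ^ 6 * A' ^ 6 + (-1) * A ^ 8 * A' ^ 4 + (1) * A ^ 3 * A' ^ 7 + (-1) * A ^ 7 * A' ^ 3 + (1) * A ^ 2 * A' ^ 6 + (-1) * A ^ 6 * A' ^ 2 + (1) * A ^ 1 * A' ^ 5 + (-1) * A ^ 5 * A' ^ 1 + (1) * A ^ 0 * A' ^ 4 + (-1) * A ^ 4 * A' ^ 0 + (-1) * A ^ 1 * A' ^ 1 + (-1) * A ^ 0 * A' ^ 0) * hA
  · linear_combination ((-1) * A ^ 7 * A' ^ 7 + (-1) * A ^ 9 * A' ^ 5 + (-1) * A ^ 6 * A' ^ 6 + (-1) * A ^ 8 * A' ^ 4 + (1) * A ^ 3 * A' ^ 7 + (-1) * A ^ 7 * A' ^ 3 + (1) * A ^ 2 * A' ^ 6 + (-1) * A ^ 6 * A' ^ 2 + (1) * A ^ 1 * A' ^ 5 + (-1) * A ^ 5 * A' ^ 1 + (1) * A ^ 0 * A' ^ 4 + (-1) * A ^ 4 * A' ^ 0 + (-1) * A ^ 1 * A' ^ 1 + (-1) * A ^ 0 * A' ^ 0) * hA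
  · linear_combination ((-1) * A ^ 7 * A' ^ 5 + (-1) * A ^ 6 * A' ^ 4 + (1) * A ^ 3 * A' ^ 5 + (-1) * A ^ 5 * A' ^ 3 + (1) * A ^ 2 * A' ^ 4 + (-1) * A ^ 4 * A' ^ 2 + (-1) * A ^ 3 * A' ^ 1 + (-1) * A ^ 2 * A' ^ 0) * hA
  · linear_combination ((-1) * A ^ 7 * A' ^ 5 + (-1) * A ^ 6 * A' ^ 4 + (1) * A ^ 3 * A' ^ 5 + (-1) * A ^ 5 * A' ^ 3 + (1) * A ^ 2 * A' ^ 4 + (-1) * A ^ 4 * A' ^ 2 + (1) * A ^ 1 * A' ^ 3 + (-1) * A ^ 3 * A' ^ 1 + (1) * A ^ 0 * A' ^ 2 + (-1) * A ^ 2 * A' ^ 0) * hA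

/-- the coefficient of the `q`-th power of the full twist -/
def cq (A : L) (q : ℕ) : L := (A ^ 8 - A ^ 4) * ∑ i ∈ range q, (A ^ 12) ^ i

theorem cq_mul (hA : A * A' = 1) (hδ : δ = -A ^ 2 - A' ^ 2) (q : ℕ) :
    cq A q * (δ ^ 2 - 1) = (A ^ 12) ^ q - 1 := by
  have h := geom_sum_mul (A ^ 12) q
  unfold cq
  subst hδ
  linear_combination h + (∑ i ∈ range q, (A ^ 12) ^ i) * ((1) * A ^ 7 * A' ^ 3 + (2) * A ^ 9 * A' ^ 1 + (1) * A ^ 6 * A' ^ 2 + (2) * A ^ 8 * A' ^ 0 + (-1) * A ^ 3 * A' ^ 3 + (-1) * A ^ 5 * A' ^ 1 + (-1) * A ^ 2 * A' ^ 2 + (-1) * A ^ 4 * A' ^ 0 + (-1) * A ^ 1 * A' ^ 1 + (-1) * A ^ 0 * A' ^ 0) * hA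

theorem TL2.three_pow (h : TL2 δ a b) (hA : A * A' = 1) (hδ : δ = -A ^ 2 - A' ^ 2) (q : ℕ) :
    ((A • (1 : B) + A' • a) * (A • (1 : B) + A' • b)) ^ (3 * q) =
      A' ^ (6 * q) • ((1 : B) + cq A q • FF δ a b) := by
  induction q with
  | zero => simp [cq]
  | succ q ih =>
    have e1 : 3 * (q + 1) = 3 * q + 3 := by ring
    have e2 : 6 * (q + 1) = 6 * q + 6 := by ring
    have e3 := cq_mul hA hδ 1
    have e4 : cq A 1 = A ^ 8 - A ^ 4 := by simp [cq]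
    rw [e4, pow_one] at e3
    have e5 : cq A (q + 1) = (A ^ 8 - A ^ 4) + cq A q * A ^ 12 := by
      unfold cq
      rw [sum_range_succ', pow_zero, mul_add, mul_one, add_comm]
      congr 1
      rw [mul_assoc, sum_mul]
      exact congrArg _ (sum_congr rfl fun i _ => pow_succ _ _)
    rw [e1, e2, pow_add, pow_add, ih, h.three hA hδ, e5]
    simp only [mul_add, add_mul, smul_mul_assoc, mul_smul_comm, one_mul, mul_one, h.F_F]
    match_scalars
    · ring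
    · linear_combination (A' ^ (6 * q) * A' ^ 6 * cq A q) * e3

/-! ### the sequence `S_{n-1}` -/

/-- the sequence `0, 1, τ, τ² - 1, …` -/
def Sg (τ : L) : ℕ → L
  | 0 => 0
  | 1 => 1
  | (n + 2) => τ * Sg τ (n + 1) - Sg τ n

theorem Sg_add (τ : L) (m n : ℕ) : Sg τ (m + n + 1) = Sg τ (m + 1) * Sg τ (n + 1) - Sg τ m * Sg τ n := by
  induction n using Nat.twoStepInduction with
  | zero => simp [Sg]
  | one => simp [Sg]; ring
  | more n ih1 ih2 =>
    have e : m + (n + 2) + 1 = (m + n + 1) + 2 := by ring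
    have e2 : m + (n + 1) + 1 = m + n + 1 + 1 := by ring
    have s3 : Sg τ (n + 2 + 1) = τ * Sg τ (n + 1 + 1) - Sg τ (n + 1) := rfl
    have s2 : Sg τ (n + 1 + 1) = τ * Sg τ (n + 1) - Sg τ n := rfl
    rw [e, Sg, ← e2, ih2, ih1, s3, s2]
    ring

theorem Sg_dvd (τ : L) (N k : ℕ) : Sg τ N ∣ Sg τ (N * k) := by
  induction k with
  | zero => simp [Sg]
  | succ k ih =>
    rcases Nat.eq_zero_or_pos N with h | h
    · subst h; simp [Sg]
    · obtain ⟨n, rfl⟩ : ∃ n, N = n + 1 := ⟨N - 1, by omega⟩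
      have e : (n + 1) * (k + 1) = (n + 1) * k + n + 1 := by ring
      rw [e, Sg_add]
      exact dvd_sub (Dvd.intro_left _ rfl) (ih.mul_right _)

theorem Sg_cheb (τ : L) (n : ℕ) :
    Sg τ n = (Polynomial.Chebyshev.S L ((n : ℤ) - 1)).eval τ := by
  induction n using Nat.twoStepInduction with
  | zero => simp [Sg]
  | one => simp [Sg]
  | more n ih1 ih2 =>
    have h := Polynomial.Chebyshev.S_add_two L ((n : ℤ) - 1)
    have e1 : (((n + 2 : ℕ) : ℤ) - 1) = ((n : ℤ) - 1) + 2 := by push_cast; ring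
    have e2 : (((n + 1 : ℕ) : ℤ) - 1) = ((n : ℤ) - 1) + 1 := by push_cast; ring
    rw [e2] at ih2
    rw [Sg, ih1, ih2, e1, h, Polynomial.eval_sub, Polynomial.eval_mul, Polynomial.eval_X]

theorem pow_sub_pow {x x' F : B} {τ : L} (h1 : x * x' = 1) (h2 : x' * x = 1)
    (h3 : x + x' = τ • (1 : B) + F) (h4 : x * F = F) (h5 : x' * F = F) (n : ℕ) :
    x ^ n - x' ^ n = Sg τ n • (x - x') := by
  induction n using Nat.twoStepInduction with
  | zero => simp [Sg]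
  | one => simp [Sg]
  | more n ih1 ih2 =>
    have e1 : x ^ (n + 2) - x' ^ (n + 2) = (x ^ (n + 1) - x' ^ (n + 1)) * (x + x') - (x ^ n - x' ^ n) := by
      rw [sub_mul, mul_add, mul_add, ← pow_succ, ← pow_succ]
      have a1 : x ^ (n + 1) * x' = x ^ n := by rw [pow_succ, mul_assoc, h1, mul_one]
      have a2 : x' ^ (n + 1) * x = x' ^ n := by rw [pow_succ, mul_assoc, h2, mul_one]
      rw [a1, a2]
      abel
    have e2 : (x - x') * (x + x') = τ • (x - x') := by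
      rw [h3, mul_add, sub_mul x x' F, h4, h5, mul_smul_comm, mul_one, sub_self, add_zero]
    rw [e1, ih1, ih2, smul_mul_assoc, e2, Sg, smul_smul, ← sub_smul, mul_comm τ]

theorem pow_two_mul {x x' F : B} {τ : L} (h1 : x * x' = 1) (h2 : x' * x = 1)
    (h3 : x + x' = τ • (1 : B) + F) (h4 : x * F = F) (h5 : x' * F = F) (n : ℕ) :
    x ^ (2 * n) = 1 + Sg τ n • (x ^ n * (x - x')) := by
  have h := pow_sub_pow h1 h2 h3 h4 h5 n
  have hc : Commute x x' := by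
    unfold Commute SemiconjBy
    rw [h1, h2]
  have e : x ^ n * x' ^ n = 1 := by rw [← hc.mul_pow, h1, one_pow]
  rw [← mul_smul_comm, ← h, mul_sub, e, ← pow_add, two_mul]
  abel

end generic

end Pool.Agent.Helper52_CV
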