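import Pool.Agent.Helper52_CV.Defs
import Pool.Agent.Helper52_CV.Three

set_option autoImplicit false
set_option linter.unusedSimpArgs false

namespace Pool.Agent.Helper52_CV

open Finset LaurentPolynomial Pool.Agent.H891R2.Jones Pool.Agent.W639.RB Pool.Agent.Y463.SK
  Pool.Agent.Y463.MP

variable {m s : ℕ}

/-! ### twists of two strands -/

theorem zz_replicate (x : Letter m) (n : ℕ) :
    zz (List.replicate n x) = sZ m (x.1, (x.2 : ℕ)) ^ n := by
  induction n with
  | zero => rfl
  | succ n ih => rw [List.replicate_succ, zz_cons, ih, pow_succ']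

theorem sZ_pow (i n : ℕ) (hi : i + 1 < m) : sZ m (true, i) ^ n =
    (T (n : ℤ) : ℤ[T;T⁻¹]) • (1 : TLZ m) +
      (T ((n : ℤ) - 2) * ∑ j ∈ range n, (-T (-4)) ^ j : ℤ[T;T⁻¹]) • EZ m i := by
  induction n with
  | zero => simp
  | succ n ih =>
    have hE := (isTL_EZ m).sq i hi
    rw [pow_succ', ih, sZ_true, sum_range_succ']
    simp only [mul_add, add_mul, smul_mul_assoc, mul_smul_comm, one_mul, mul_one, hE]
    have e1 : (T (((n + 1 : ℕ) : ℤ)) : ℤ[T;T⁻¹]) = T 1 * T (n : ℤ) := by
      rw [← T_add]; congr 1; push_cast; ring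
    have e2 : (T (((n + 1 : ℕ) : ℤ) - 2) : ℤ[T;T⁻¹]) = T 1 * T ((n : ℤ) - 2) := by
      rw [← T_add]; congr 1; push_cast; ring
    have e3 : (T (-4) : ℤ[T;T⁻¹]) = T (-1) ^ 4 := by rw [T_pow]; norm_num
    have e4 : (T (n : ℤ) : ℤ[T;T⁻¹]) = T 1 ^ 2 * T ((n : ℤ) - 2) := by
      rw [T_pow, ← T_add]; congr 1; push_cast; ring
    have h := TT
    have e5 : ∑ j ∈ range n, (-T (-4) : ℤ[T;T⁻¹]) ^ (j + 1) =
        -T (-4) * ∑ j ∈ range n, (-T (-4) : ℤ[T;T⁻¹]) ^ j := by
      rw [mul_sum]
      exact sum_congr rfl fun j _ => pow_succ' _ _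
    rw [e1, e2, e5, e3, e4]
    generalize (T 1 : ℤ[T;T⁻¹]) = a at *
    generalize (T (-1) : ℤ[T;T⁻¹]) = a' at *
    generalize (T ((n : ℤ) - 2) : ℤ[T;T⁻¹]) = q at *
    generalize (∑ j ∈ range n, (-a' ^ 4) ^ j : ℤ[T;T⁻¹]) = S
    generalize (EZ m i) = e
    have h6 : a * q * (-a' ^ 4 * S) + a * q * (-a' ^ 4) ^ 0 =
        a * (q * S) + (a' * (a ^ 2 * q) + a' * (q * S * (-a ^ 2 - a' ^ 2))) := by
      rw [pow_zero]
      linear_combination (-q * S * a'^3 - a * q + q * S * a) * h
    rw [h6]
    module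

/-- the modulus of the twists of two strands, `(1 - t^{6s}) / (1 + t)` up to a unit -/
noncomputable def yy (s : ℕ) : ℤ[T;T⁻¹] := T (-2) * ∑ j ∈ range (6 * s), (-T (-4)) ^ j

/-- the modulus of the twists of three strands, `(1 - t^{6s}) / (1 + t + t²)` up to a unit -/
noncomputable def xx (s : ℕ) : ℤ[T;T⁻¹] := cq (T 1) (2 * s)

theorem two_eq (i : Fin (m - 1)) :
    zz (List.replicate (6 * s) ((true, i) : Letter m)) =
      (T ((6 * s : ℕ) : ℤ) : ℤ[T;T⁻¹]) • ((1 : TLZ m) + yy s • EZ m i) := by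
  rw [zz_replicate, sZ_pow _ _ (letter_lt (true, i)), yy, smul_add, smul_smul]
  congr 2
  rw [sub_eq_add_neg, T_add]
  ring

theorem invW_replicate (n : ℕ) (b : Bool) (i : Fin (m - 1)) :
    invW (List.replicate n ((b, i) : Letter m)) = List.replicate n ((!b, i) : Letter m) := by
  simp [invW]

theorem two_Nr (b : Bool) (i : Fin (m - 1)) :
    Nr (yy s) (zz (List.replicate (6 * s) ((b, i) : Letter m)))
      (zz (invW (List.replicate (6 * s) ((b, i) : Letter m)))) := by
  have h : Nr (yy s) (zz (List.replicate (6 * s) ((true, i) : Letter m)))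
      (zz (invW (List.replicate (6 * s) ((true, i) : Letter m)))) := by
    refine ⟨zz_inv _, zz_inv' _, T ((6 * s : ℕ) : ℤ), T (-((6 * s : ℕ) : ℤ)), _, ?_, two_eq i⟩
    rw [← T_add, add_neg_cancel, T_zero]
  cases b
  · rw [invW_replicate] at h ⊢
    exact h.symm
  · exact h

/-! ### twists of three strands -/

theorem tl2_EZ (i : ℕ) (hi : i + 2 < m) : TL2 (-(T 1)^2 - (T (-1))^2 : ℤ[T;T⁻¹]) (EZ m i) (EZ m (i + 1)) where
  aa := (isTL_EZ m).sq i (by omega)
  bb := (isTL_EZ m).sq (i + 1) (by omega)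
  aba := (isTL_EZ m).up i (by omega)
  bab := (isTL_EZ m).down i (by omega)

theorem zz_flatten (w : List (Letter m)) (n : ℕ) : zz (List.replicate n w).flatten = zz w ^ n := by
  induction n with
  | zero => rfl
  | succ n ih => rw [List.replicate_succ, List.flatten_cons, zz_append, ih, pow_succ']

/-- the word of a twist of three strands -/
abbrev thW (s : ℕ) (i j : Fin (m - 1)) : List (Letter m) :=
  (List.replicate (6 * s) [((true, i) : Letter m), (true, j)]).flatten

theorem three_eq (i j : Fin (m - 1)) (h : (j : ℕ) = i + 1) :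
    zz (thW s i j) = (T (-1) ^ (6 * (2 * s)) : ℤ[T;T⁻¹]) •
      ((1 : TLZ m) + xx s • FF (-(T 1)^2 - (T (-1))^2 : ℤ[T;T⁻¹]) (EZ m i) (EZ m (i + 1))) := by
  have hj : (i : ℕ) + 2 < m := by
    have := j.2
    omega
  have e1 : zz [((true, i) : Letter m), (true, j)] = ((T 1 : ℤ[T;T⁻¹]) • (1 : TLZ m) +
      (T (-1) : ℤ[T;T⁻¹]) • EZ m i) * ((T 1 : ℤ[T;T⁻¹]) • (1 : TLZ m) +
      (T (-1) : ℤ[T;T⁻¹]) • EZ m (i + 1)) := by
    rw [zz_cons, zz_single]
    simp only [h]
    rw [sZ_true, sZ_true]
  rw [zz_flatten, e1, show 6 * s = 3 * (2 * s) by ring]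
  exact (tl2_EZ (i : ℕ) hj).three_pow TT rfl (2 * s)

theorem three_Nr (i j : Fin (m - 1)) (h : (j : ℕ) = i + 1) :
    Nr (xx s) (zz (thW s i j)) (zz (invW (thW s i j))) := by
  refine ⟨zz_inv _, zz_inv' _, T (-1) ^ (6 * (2 * s)), T 1 ^ (6 * (2 * s)), _, ?_, three_eq i j h⟩
  rw [← mul_pow, mul_comm, TT, one_pow]

/-! ### permutations -/

theorem permL_replicate (b : Bool) (i n : ℕ) : permL (List.replicate (2 * n) (b, i)) = 1 := by
  induction n with
  | zero => rfl
  | succ n ih =>
    have : List.replicate (2 * (n + 1)) (b, i) = [(b, i), (b, i)] ++ List.replicate (2 * n) (b, i) := by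
      rw [show 2 * (n + 1) = 2 * n + 1 + 1 by ring]
      rfl
    rw [this, permL_append, ih, mul_one]
    simp [permL]

theorem toN_replicate' (n : ℕ) (x : Letter m) :
    toN (List.replicate n x) = List.replicate n (x.1, (x.2 : ℕ)) := by
  simp [toN]

theorem toN_flatten' (n : ℕ) (w : List (Letter m)) :
    toN (List.replicate n w).flatten = (List.replicate n (toN w)).flatten := by
  simp [toN]

theorem permL_flatten (n : ℕ) (w : List (Bool × ℕ)) :
    permL (List.replicate n w).flatten = permL w ^ n := by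
  induction n with
  | zero => rfl
  | succ n ih => rw [List.replicate_succ, List.flatten_cons, permL_append, ih, pow_succ']

theorem three_cycle (i : ℕ) :
    (Equiv.swap i (i + 1) * Equiv.swap (i + 1) (i + 2) : Equiv.Perm ℕ) ^ 3 = 1 := by
  have key : ∀ n, (Equiv.swap i (i + 1) * Equiv.swap (i + 1) (i + 2) : Equiv.Perm ℕ) n =
      if n = i then i + 1 else if n = i + 1 then i + 2 else if n = i + 2 then i else n := by
    intro n
    rw [Equiv.Perm.mul_apply, Equiv.swap_apply_def, Equiv.swap_apply_def]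
    split_ifs <;> omega
  apply Equiv.ext
  intro n
  rw [pow_succ, pow_two, Equiv.Perm.mul_apply, Equiv.Perm.mul_apply, key, key, key,
    Equiv.Perm.one_apply]
  split_ifs <;> omega

theorem permL_three (i n : ℕ) :
    permL (List.replicate (3 * n) [(true, i), (true, i + 1)]).flatten = 1 := by
  rw [permL_flatten, pow_mul]
  have : permL [(true, i), (true, i + 1)] = Equiv.swap i (i + 1) * Equiv.swap (i + 1) (i + 2) := by
    simp [permL]
  rw [this, three_cycle, one_pow]

/-! ### words which are scalar modulo `c` -/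

/-- the word is pure, and it is a unit times `1` modulo `c` -/
structure Wk (c : ℤ[T;T⁻¹]) (u : List (Letter m)) : Prop where
  nr : Nr c (zz u) (zz (invW u))
  perm : permL (toN u) = 1

/-- the word is pure, it is `1` modulo `c`, and it does not change the writhe -/
structure St (c : ℤ[T;T⁻¹]) (u : List (Letter m)) : Prop where
  n1 : N1 c (zz u) (zz (invW u))
  perm : permL (toN u) = 1
  cost : ∀ U, costS (toN u) U = 0

variable {c d : ℤ[T;T⁻¹]} {u v : List (Letter m)}

theorem St.wk (h : St c u) : Wk c u := ⟨h.n1.nr, h.perm⟩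

theorem wk_two (b : Bool) (i : Fin (m - 1)) :
    Wk (yy s) (List.replicate (6 * s) ((b, i) : Letter m)) := by
  refine ⟨two_Nr b i, ?_⟩
  rw [toN_replicate', show 6 * s = 2 * (3 * s) by ring]
  exact permL_replicate b i (3 * s)

theorem wk_three (i j : Fin (m - 1)) (hij : (j : ℕ) = i + 1) : Wk (xx s) (thW s i j) := by
  refine ⟨three_Nr i j hij, ?_⟩
  unfold thW
  rw [toN_flatten', show 6 * s = 3 * (2 * s) by ring]
  have : toN [((true, i) : Letter m), (true, j)] = [(true, (i : ℕ)), (true, i + 1)] := by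
    simp [toN, hij]
  rw [this]
  exact permL_three i (2 * s)

theorem Wk.conj (h : Wk c u) (w : List (Letter m)) : Wk c (w ++ u ++ invW w) := by
  refine ⟨?_, ?_⟩
  · rw [invW_append, invW_append, invW_invW, zz_append, zz_append, zz_append, zz_append,
      ← mul_assoc]
    exact h.nr.conj (zz_inv w) (zz_inv' w)
  · rw [toN_append, toN_append, permL_append, permL_append, h.perm, mul_one, toN_inv]
    exact permL_inv _

theorem Wk.comm (h : Wk c u) (h' : Wk d v) : St (c * d) (u ++ v ++ invW u ++ invW v) := by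
  have i3 : permL (toN (invW u)) = 1 := by rw [toN_inv]; exact permL_invL' h.perm
  have j3 : permL (toN (invW v)) = 1 := by rw [toN_inv]; exact permL_invL' h'.perm
  refine ⟨?_, ?_, ?_⟩
  · have e1 : zz (u ++ v ++ invW u ++ invW v) = zz u * zz v * zz (invW u) * zz (invW v) := by
      rw [zz_append, zz_append, zz_append]
    have e2 : zz (invW (u ++ v ++ invW u ++ invW v)) =
        zz v * zz u * zz (invW v) * zz (invW u) := by
      rw [invW_append, invW_append, invW_append, invW_invW, invW_invW, zz_append, zz_append,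
        zz_append]
      noncomm_ring
    rw [e1, e2]
    exact h.nr.comm h'.nr
  · rw [toN_append, toN_append, toN_append, permL_append, permL_append, permL_append, h.perm,
      h'.perm, i3, j3]
    rfl
  · intro U
    have a1 := costS_inv (toN u) U
    have a2 := costS_inv (toN v) U
    rw [h.perm, comp_one, ← toN_inv] at a1
    rw [h'.perm, comp_one, ← toN_inv] at a2
    simp only [toN_append, costS_append, permL_append, h.perm, h'.perm, i3, mul_one, comp_one,
      a1, a2]
    ring

/-- **the local move** -/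
theorem fPoly_move (hm : 0 < m) (h : St c u) (O : Outer m) (a b : List (Letter m)) :
    ∃ G : ℤ[T;T⁻¹], (dia O (a ++ u ++ b)).fPoly = (dia O (a ++ b)).fPoly + c * G := by
  obtain ⟨-, -, y, hy⟩ := h.n1
  have hw : (dia O (a ++ u ++ b)).writhe = (dia O (a ++ b)).writhe := by
    rw [writhe_dia, writhe_dia, toN_append, toN_append, toN_append, costS_append, costS_append,
      costS_append, permL_append, h.perm, mul_one, h.cost, add_zero]
  have hb : (dia O (a ++ u ++ b)).bracket = (dia O (a ++ b)).bracket +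
      c * PhiS hm O (zz a * y * zz b) := by
    rw [bracket_dia hm, bracket_dia hm, zz_append, zz_append, zz_append, hy, mul_add, mul_one,
      add_mul, map_add, mul_smul_comm, smul_mul_assoc, map_smul, smul_eq_mul]
  refine ⟨(if Even (dia O (a ++ b)).writhe then 1 else -1) * T (-3 * (dia O (a ++ b)).writhe) *
    PhiS hm O (zz a * y * zz b), ?_⟩
  unfold Diagram.fPoly
  rw [hw, hb]
  ring

end Pool.Agent.Helper52_CV
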