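import Pool.Agent.Helper52_CV.Fin

/-!
# Finite rings
-/

set_option autoImplicit false

namespace Pool.Agent.Helper52_CV

open Finset LaurentPolynomial Pool.Agent.H891R2.Jones Pool.Agent.W639.RB
  Pool.Agent.Y463.SK Pool.Agent.Y463.MP

theorem Md_dvd (N j : ℕ) (W : List (List (Letter 3))) : Md N W ∣ Md (N * j) W := by
  unfold Md
  refine mul_dvd_mul ?_ ?_
  · rw [pow_mul]
    have := sub_dvd_pow_sub_pow (1 : ℤ[T;T⁻¹]) (T (-4) ^ N) j
    rwa [one_pow] at this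
  · induction W with
    | nil => simp
    | cons w W ih =>
      rw [List.map_cons, List.prod_cons, List.map_cons, List.prod_cons]
      refine mul_dvd_mul ?_ ih
      rw [← Sg_cheb, ← Sg_cheb]
      exact Sg_dvd _ _ _

theorem ring_zero (N j : ℕ) (W : List (List (Letter 3))) (R : Type) [CommRing R] [Finite R]
    (hR : Nat.card R ≤ N) (φ : ℤ[T;T⁻¹] →+* R) (hj : N.factorial ∣ j) : φ (Md j W) = 0 := by
  have h1 : (T (-4) : ℤ[T;T⁻¹]) * T 4 = 1 := by rw [← T_add]; norm_num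
  have h2 : (T 4 : ℤ[T;T⁻¹]) * T (-4) = 1 := by rw [← T_add]; norm_num
  let x : ℤ[T;T⁻¹]ˣ := ⟨T (-4), T 4, h1, h2⟩
  have h3 : (Units.map (φ : ℤ[T;T⁻¹] →* R) x) ^ j = 1 := by
    have h4 := pow_card_eq_one' (x := Units.map (φ : ℤ[T;T⁻¹] →* R) x)
    have h5 : Nat.card Rˣ ∣ j := by
      refine (Nat.dvd_factorial Nat.card_pos ?_).trans hj
      exact (Nat.card_le_card_of_injective _ Units.val_injective).trans hR
    obtain ⟨d, hd⟩ := h5
    rw [hd, pow_mul, h4, one_pow]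
  have h6 : φ (T (-4)) ^ j = 1 := by
    have := congrArg Units.val h3
    rw [Units.val_pow_eq_pow_val, Units.val_one] at this
    exact this
  unfold Md
  rw [map_mul, map_sub, map_one, map_pow, h6, sub_self, zero_mul]

theorem main2 (N k : ℕ) (hN : 1 ≤ N) (W : List (List (Letter 3)))
    (hW : ∀ w ∈ W, expSum w = 0 ∧ 3 ≤ |((w.map slz).prod).trace|) :
    ∃ u : ℕ → List (Letter 4),
    (∀ i, IsPure (u i)) ∧
    (∀ i (O : Outer 4) (v w : List (Letter 4)),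
      Md N W ^ k ∣ (dia O (v ++ u i ++ w)).fPoly - (dia O (v ++ w)).fPoly ∧
      ∀ (R : Type) [CommRing R] [Finite R] (φ : ℤ[T;T⁻¹] →+* R), Nat.card R ≤ N →
        φ (dia O (v ++ u i ++ w)).fPoly = φ (dia O (v ++ w)).fPoly) ∧
    (∀ i, (dia (braidClosure 4) (b0 ++ u i)).IsClosed ∧ (∀ x y, (permW (b0 ++ u i)).SameCycle x y) ∧
      Md N W ^ k ∣ (dia (braidClosure 4) (b0 ++ u i)).fPoly - 1 ∧
      ∀ (R : Type) [CommRing R] [Finite R] (φ : ℤ[T;T⁻¹] →+* R), Nat.card R ≤ N →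
        φ (dia (braidClosure 4) (b0 ++ u i)).fPoly = 1) ∧
    Function.Injective (fun i => (dia (braidClosure 4) (b0 ++ u i)).fPoly) := by
  obtain ⟨u, h1, h2, h3, h4⟩ := main (N * N.factorial) (k + 1)
    (Nat.mul_pos hN (Nat.factorial_pos N)) W hW
  have hd : Md N W ^ k ∣ Md (N * N.factorial) W ^ (k + 1) :=
    (pow_dvd_pow_of_dvd (Md_dvd N _ W) k).trans (pow_dvd_pow _ (Nat.le_succ k))
  have hr : ∀ (R : Type) [CommRing R] [Finite R] (φ : ℤ[T;T⁻¹] →+* R), Nat.card R ≤ N →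
      ∀ a b : ℤ[T;T⁻¹], Md (N * N.factorial) W ^ (k + 1) ∣ a - b → φ a = φ b := by
    intro R _ _ φ hR a b ⟨c, hc⟩
    have h5 := congrArg φ hc
    rw [map_sub, map_mul, map_pow, ring_zero N _ W R hR φ (Dvd.intro_left _ rfl),
      zero_pow (Nat.succ_ne_zero k), zero_mul] at h5
    exact sub_eq_zero.1 h5
  refine ⟨u, h1, fun i O v w => ⟨hd.trans (h2 i O v w), fun R _ _ φ hR => hr R φ hR _ _ (h2 i O v w)⟩,
    fun i => ⟨(h3 i).1, (h3 i).2.1, hd.trans (h3 i).2.2, fun R _ _ φ hR => ?_⟩, h4⟩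
  rw [hr R φ hR _ _ (h3 i).2.2, map_one]

end Pool.Agent.Helper52_CV
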