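import Pool.Agent.Helper52_CV.Lcs

/-!
# The functional of the closure is a trace; its values for four strands
-/

set_option autoImplicit false

namespace Pool.Agent.Helper52_CV

open Finset LaurentPolynomial Pool.Agent.H891R2.Jones Pool.Agent.W639.RB
  Pool.Agent.Y463.SK Pool.Agent.Y463.MP

variable {m : ℕ}

/-- the operators commute with the linear maps of the values -/
def Natl (b : BB m) : Prop := ∀ (N : {N : ℕ // 3 ≤ N})
  (S : ((Fin m → Fin N.1) → ℂ) →ₗ[ℂ] ((Fin m → Fin N.1) → ℂ))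
  (ψ : (Fin m → Fin N.1) → ((Fin m → Fin N.1) → ℂ)),
    b N (fun x => S (ψ x)) = fun x => S (b N ψ x)

theorem natl (b : BB m) (hb : b ∈ Algebra.adjoin ℤ[T;T⁻¹] (Set.range (EB m))) : Natl b := by
  induction hb using Algebra.adjoin_induction with
  | mem x hx =>
    obtain ⟨i, rfl⟩ := hx
    intro N S ψ
    show ee m N.1 ((Fin m → Fin N.1) → ℂ) i (fun x => S (ψ x)) =
      fun x => S (ee m N.1 ((Fin m → Fin N.1) → ℂ) i ψ x)
    unfold ee
    split_ifs with h
    · funext x
      rw [EE_apply, EE_apply]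
      split_ifs
      · rw [map_sum]
      · rw [map_zero]
    · funext x
      rw [LinearMap.zero_apply, LinearMap.zero_apply]
      exact (map_zero S).symm
  | algebraMap r =>
    intro N S ψ
    have h : (algebraMap ℤ[T;T⁻¹] (BB m) r) N = ev N.1 N.2 r • 1 := by
      rw [Algebra.algebraMap_eq_smul_one, BB_smul, BB_one]
    rw [h]
    funext x
    simp only [LinearMap.smul_apply, Module.End.one_apply, Pi.smul_apply, map_smul]
  | add x y _ _ hx hy =>
    intro N S ψ
    rw [BB_add, LinearMap.add_apply, hx N S ψ, hy N S ψ]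
    funext z
    simp only [Pi.add_apply, LinearMap.add_apply, map_add]
  | mul x y _ _ hx hy =>
    intro N S ψ
    rw [BB_mul, Module.End.mul_apply, hy N S ψ, hx N S (y N ψ)]
    rfl

/-- the matrix of an operator -/
theorem matrix_eq (b : TLZ m) (N : {N : ℕ // 3 ≤ N}) (ψ : (Fin m → Fin N.1) → ((Fin m → Fin N.1) → ℂ))
    (x z : Fin m → Fin N.1) :
    b.1 N ψ x z = ∑ y, b.1 N (fun x y => ind (x = y)) x y * ψ y z := by
  classical
  let S : ((Fin m → Fin N.1) → ℂ) →ₗ[ℂ] ((Fin m → Fin N.1) → ℂ) :=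
    { toFun := fun w => ∑ y, w y • ψ y
      map_add' := fun w w' => by
        simp only [Pi.add_apply, add_smul, sum_add_distrib]
      map_smul' := fun r w => by
        simp only [Pi.smul_apply, smul_eq_mul, mul_smul, RingHom.id_apply, smul_sum] }
  have h1 : (fun x => S ((fun x y => ind (x = y)) x)) = ψ := by
    funext x
    show ∑ y, (ind (x = y) : ℂ) • ψ y = ψ x
    rw [sum_eq_single x]
    · rw [ind_pos rfl, one_smul]
    · intro y _ hy
      rw [ind_neg (fun h => hy h.symm), zero_smul]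
    · intro h
      exact absurd (mem_univ x) h
  have h2 := natl b.1 b.2 N S (fun x y => ind (x = y))
  rw [h1] at h2
  rw [h2]
  show (∑ y, (b.1 N (fun x y => ind (x = y)) x y) • ψ y) z = _
  rw [Finset.sum_apply]
  rfl

theorem Zg_closure (A : ℂ) {N : ℕ} (g : (Fin m → Fin N) → ((Fin m → Fin N) → ℂ)) :
    Zg A N (braidClosure m) g = ∑ x, g x x := by
  unfold Zg
  refine sum_congr rfl fun col _ => ?_
  show (1 * 1 : ℂ) * g col col = g col col
  rw [one_mul, one_mul]

/-- the functional of the closure -/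
noncomputable abbrev FC (hm : 0 < m) : TLZ m →ₗ[ℤ[T;T⁻¹]] ℤ[T;T⁻¹] := PhiS hm (braidClosure m)

theorem FC_spec (hm : 0 < m) (b : TLZ m) (N : {N : ℕ // 3 ≤ N}) :
    (N.1 : ℂ) * ev N.1 N.2 (FC hm b) = ∑ x, (b.1 N) (fun x y => ind (x = y)) x x := by
  rw [PhiS_spec, Zg_closure]

theorem FC_comm (hm : 0 < m) (a b : TLZ m) : FC hm (a * b) = FC hm (b * a) := by
  apply ev_unique
  intro N
  rw [FC_spec, FC_spec]
  have h : ∀ a b : TLZ m, ∀ x, ((a * b : TLZ m) : BB m) N (fun x y => ind (x = y)) x x =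
      ∑ y, a.1 N (fun x y => ind (x = y)) x y * b.1 N (fun x y => ind (x = y)) y x := by
    intro a b x
    rw [Subalgebra.coe_mul, BB_mul, Module.End.mul_apply]
    exact matrix_eq a N _ x x
  simp only [h]
  rw [sum_comm]
  exact sum_congr rfl fun _ _ => sum_congr rfl fun _ _ => mul_comm _ _

/-! ### four strands -/

section four

variable {N : ℕ}

theorem sum4 (f : (Fin 4 → Fin N) → ℂ) : ∑ x, f x = ∑ a, ∑ b, ∑ c, ∑ d, f ![a, b, c, d] := by
  have h : Function.Bijective
      (fun p : Fin N × Fin N × Fin N × Fin N => (![p.1, p.2.1, p.2.2.1, p.2.2.2] : Fin 4 → Fin N)) := by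
    constructor
    · rintro ⟨a, b, c, d⟩ ⟨a', b', c', d'⟩ h
      have h0 := congrFun h 0
      have h1 := congrFun h 1
      have h2 := congrFun h 2
      have h3 := congrFun h 3
      simp at h0 h1 h2 h3
      simp [h0, h1, h2, h3]
    · intro x
      refine ⟨(x 0, x 1, x 2, x 3), ?_⟩
      funext j
      fin_cases j <;> rfl
  rw [← Function.Bijective.sum_comp h f, Fintype.sum_prod_type]
  refine sum_congr rfl fun a _ => ?_
  rw [Fintype.sum_prod_type]
  exact sum_congr rfl fun a _ => Fintype.sum_prod_type _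

theorem vec_eq {a b c d a' b' c' d' : Fin N} :
    (![a, b, c, d] : Fin 4 → Fin N) = ![a', b', c', d'] ↔ a = a' ∧ b = b' ∧ c = c' ∧ d = d' := by
  constructor
  · intro h
    have h0 := congrFun h 0
    have h1 := congrFun h 1
    have h2 := congrFun h 2
    have h3 := congrFun h 3
    simp at h0 h1 h2 h3
    exact ⟨h0, h1, h2, h3⟩
  · rintro ⟨rfl, rfl, rfl, rfl⟩; rfl

theorem upd01 (a b c d e : Fin N) : upd (![a, b, c, d] : Fin 4 → Fin N) 0 1 e = ![e, e, c, d] := by
  funext j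
  fin_cases j <;> simp [upd]

theorem upd12 (a b c d e : Fin N) : upd (![a, b, c, d] : Fin 4 → Fin N) 1 2 e = ![a, e, e, d] := by
  funext j
  fin_cases j <;> simp [upd]

theorem upd23 (a b c d e : Fin N) : upd (![a, b, c, d] : Fin 4 → Fin N) 2 3 e = ![a, b, e, e] := by
  funext j
  fin_cases j <;> simp [upd]

variable {W : Type} [AddCommGroup W] [Module ℂ W]

open Classical in
theorem e0_apply (ψ : (Fin 4 → Fin N) → W) (a b c d : Fin N) :
    ee 4 N W 0 ψ ![a, b, c, d] = if a = b then ∑ e, ψ ![e, e, c, d] else 0 := by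
  have h : ee 4 N W 0 = EE 0 1 := by
    unfold ee
    rw [dif_pos (by omega)]
    rfl
  rw [h, EE_apply]
  simp only [upd01]
  rfl

open Classical in
theorem e1_apply (ψ : (Fin 4 → Fin N) → W) (a b c d : Fin N) :
    ee 4 N W 1 ψ ![a, b, c, d] = if b = c then ∑ e, ψ ![a, e, e, d] else 0 := by
  have h : ee 4 N W 1 = EE 1 2 := by
    unfold ee
    rw [dif_pos (by omega)]
    rfl
  rw [h, EE_apply]
  simp only [upd12]
  rfl

open Classical in
theorem e2_apply (ψ : (Fin 4 → Fin N) → W) (a b c d : Fin N) :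
    ee 4 N W 2 ψ ![a, b, c, d] = if c = d then ∑ e, ψ ![a, b, e, e] else 0 := by
  have h : ee 4 N W 2 = EE 2 3 := by
    unfold ee
    rw [dif_pos (by omega)]
    rfl
  rw [h, EE_apply]
  simp only [upd23]
  rfl

theorem ind_vec (a b c d a' b' c' d' : Fin N) :
    ind ((![a, b, c, d] : Fin 4 → Fin N) = ![a', b', c', d']) =
      if a = a' ∧ b = b' ∧ c = c' ∧ d = d' then 1 else 0 := by
  by_cases h : a = a' ∧ b = b' ∧ c = c' ∧ d = d'
  · rw [ind_pos (vec_eq.2 h), if_pos h]
  · rw [ind_neg (fun h' => h (vec_eq.1 h')), if_neg h]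

end four

/-- the loop value -/
noncomputable def dl : ℤ[T;T⁻¹] := -(T 1) ^ 2 - (T (-1)) ^ 2

theorem ev_dl (N : {N : ℕ // 3 ≤ N}) : ev N.1 N.2 dl = (N.1 : ℂ) := by
  unfold dl
  rw [map_sub, map_neg, map_pow, map_pow, ev_T1, ev_Tm1]
  exact (Ar_d N.1 N.2).symm

/-- the functional for four strands -/
noncomputable abbrev F4 : TLZ 4 →ₗ[ℤ[T;T⁻¹]] ℤ[T;T⁻¹] := FC (by norm_num)

theorem F4_spec (b : TLZ 4) (N : {N : ℕ // 3 ≤ N}) : (N.1 : ℂ) * ev N.1 N.2 (F4 b) =
    ∑ x, ∑ y, ∑ z, ∑ w, (b.1 N) (fun x y => ind (x = y)) ![x, y, z, w] ![x, y, z, w] := by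
  rw [FC_spec, sum4]

theorem F4_one : F4 1 = dl ^ 3 := by
  apply ev_unique
  intro N
  rw [F4_spec, map_pow, ev_dl]
  have h : ∀ x y z w : Fin N.1, (((1 : TLZ 4) : BB 4) N) (fun x y => ind (x = y)) ![x, y, z, w]
      ![x, y, z, w] = (1 : ℂ) := fun x y z w => ind_pos rfl
  simp only [h, sum_const, card_univ, Fintype.card_fin, nsmul_eq_mul, mul_one]
  ring

theorem F4_E0 : F4 (EZ 4 0) = dl ^ 2 := by
  apply ev_unique
  intro N
  rw [F4_spec, map_pow, ev_dl]
  have h : ∀ x y z w : Fin N.1, (((EZ 4 0 : TLZ 4) : BB 4) N) (fun x y => ind (x = y)) ![x, y, z, w]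
      ![x, y, z, w] = if x = y then (1 : ℂ) else 0 := by
    intro x y z w
    show ee 4 N.1 ((Fin 4 → Fin N.1) → ℂ) 0 (fun x y => ind (x = y)) ![x, y, z, w] ![x, y, z, w] = _
    rw [e0_apply]
    by_cases hxy : x = y
    · subst hxy
      rw [if_pos rfl, if_pos rfl, Finset.sum_apply]
      simp only [ind_vec]
      simp
    · rw [if_neg hxy, if_neg hxy]; rfl
  simp only [h]
  simp [pow_two]

theorem F4_E1 : F4 (EZ 4 1) = dl ^ 2 := by
  apply ev_unique
  intro N
  rw [F4_spec, map_pow, ev_dl]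
  have h : ∀ x y z w : Fin N.1, (((EZ 4 1 : TLZ 4) : BB 4) N) (fun x y => ind (x = y)) ![x, y, z, w]
      ![x, y, z, w] = if y = z then (1 : ℂ) else 0 := by
    intro x y z w
    show ee 4 N.1 ((Fin 4 → Fin N.1) → ℂ) 1 (fun x y => ind (x = y)) ![x, y, z, w] ![x, y, z, w] = _
    rw [e1_apply]
    by_cases hxy : y = z
    · subst hxy
      rw [if_pos rfl, if_pos rfl, Finset.sum_apply]
      simp only [ind_vec]
      simp
    · rw [if_neg hxy, if_neg hxy]; rfl
  simp only [h]
  simp [pow_two]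

theorem F4_E2 : F4 (EZ 4 2) = dl ^ 2 := by
  apply ev_unique
  intro N
  rw [F4_spec, map_pow, ev_dl]
  have h : ∀ x y z w : Fin N.1, (((EZ 4 2 : TLZ 4) : BB 4) N) (fun x y => ind (x = y)) ![x, y, z, w]
      ![x, y, z, w] = if z = w then (1 : ℂ) else 0 := by
    intro x y z w
    show ee 4 N.1 ((Fin 4 → Fin N.1) → ℂ) 2 (fun x y => ind (x = y)) ![x, y, z, w] ![x, y, z, w] = _
    rw [e2_apply]
    by_cases hxy : z = w
    · subst hxy
      rw [if_pos rfl, if_pos rfl, Finset.sum_apply]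
      simp only [ind_vec]
      simp
    · rw [if_neg hxy, if_neg hxy]; rfl
  simp only [h]
  simp [pow_two]

theorem F4_E01 : F4 (EZ 4 0 * EZ 4 1) = dl := by
  apply ev_unique
  intro N
  rw [F4_spec, ev_dl]
  have h : ∀ x y z w : Fin N.1, (((EZ 4 0 * EZ 4 1 : TLZ 4) : BB 4) N) (fun x y => ind (x = y))
      ![x, y, z, w] ![x, y, z, w] = if x = y then (if y = z then (1 : ℂ) else 0) else 0 := by
    intro x y z w
    show ee 4 N.1 ((Fin 4 → Fin N.1) → ℂ) 0 (ee 4 N.1 ((Fin 4 → Fin N.1) → ℂ) 1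
      (fun x y => ind (x = y))) ![x, y, z, w] ![x, y, z, w] = _
    rw [e0_apply]
    by_cases hxy : x = y
    · subst hxy
      rw [if_pos rfl, if_pos rfl, Finset.sum_apply]
      simp only [e1_apply, ite_apply, Finset.sum_apply, ind_vec]
      by_cases hz : x = z
      · subst hz
        simp [Finset.filter_eq']
      · simp [hz]
    · rw [if_neg hxy, if_neg hxy]; rfl
  simp only [h]
  simp

theorem F4_E12 : F4 (EZ 4 1 * EZ 4 2) = dl := by
  apply ev_unique
  intro N
  rw [F4_spec, ev_dl]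
  have h : ∀ x y z w : Fin N.1, (((EZ 4 1 * EZ 4 2 : TLZ 4) : BB 4) N) (fun x y => ind (x = y))
      ![x, y, z, w] ![x, y, z, w] = if y = z then (if z = w then (1 : ℂ) else 0) else 0 := by
    intro x y z w
    show ee 4 N.1 ((Fin 4 → Fin N.1) → ℂ) 1 (ee 4 N.1 ((Fin 4 → Fin N.1) → ℂ) 2
      (fun x y => ind (x = y))) ![x, y, z, w] ![x, y, z, w] = _
    rw [e1_apply]
    by_cases hxy : y = z
    · subst hxy
      rw [if_pos rfl, if_pos rfl, Finset.sum_apply]
      simp only [e2_apply, ite_apply, Finset.sum_apply, ind_vec]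
      by_cases hz : y = w
      · subst hz
        simp [Finset.filter_eq']
      · simp [hz]
    · rw [if_neg hxy, if_neg hxy]; rfl
  simp only [h]
  simp

theorem F4_E02 : F4 (EZ 4 0 * EZ 4 2) = dl := by
  apply ev_unique
  intro N
  rw [F4_spec, ev_dl]
  have h : ∀ x y z w : Fin N.1, (((EZ 4 0 * EZ 4 2 : TLZ 4) : BB 4) N) (fun x y => ind (x = y))
      ![x, y, z, w] ![x, y, z, w] = if x = y then (if z = w then (1 : ℂ) else 0) else 0 := by
    intro x y z w
    show ee 4 N.1 ((Fin 4 → Fin N.1) → ℂ) 0 (ee 4 N.1 ((Fin 4 → Fin N.1) → ℂ) 2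
      (fun x y => ind (x = y))) ![x, y, z, w] ![x, y, z, w] = _
    rw [e0_apply]
    by_cases hxy : x = y
    · subst hxy
      rw [if_pos rfl, if_pos rfl, Finset.sum_apply]
      simp only [e2_apply, ite_apply, Finset.sum_apply, ind_vec]
      by_cases hz : z = w
      · subst hz
        simp [ite_and]
      · simp [hz]
    · rw [if_neg hxy, if_neg hxy]; rfl
  simp only [h]
  simp

theorem F4_E012 : F4 (EZ 4 0 * EZ 4 1 * EZ 4 2) = 1 := by
  apply ev_unique
  intro N
  rw [F4_spec, map_one, mul_one]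
  have h : ∀ x y z w : Fin N.1, (((EZ 4 0 * EZ 4 1 * EZ 4 2 : TLZ 4) : BB 4) N)
      (fun x y => ind (x = y)) ![x, y, z, w] ![x, y, z, w] =
      if x = y then (if y = z then (if z = w then (1 : ℂ) else 0) else 0) else 0 := by
    intro x y z w
    show ee 4 N.1 ((Fin 4 → Fin N.1) → ℂ) 0 (ee 4 N.1 ((Fin 4 → Fin N.1) → ℂ) 1
      (ee 4 N.1 ((Fin 4 → Fin N.1) → ℂ) 2 (fun x y => ind (x = y)))) ![x, y, z, w] ![x, y, z, w] = _
    rw [e0_apply]
    by_cases hxy : x = y
    · subst hxy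
      rw [if_pos rfl, if_pos rfl, Finset.sum_apply]
      simp only [e1_apply, e2_apply, ite_apply, Finset.sum_apply, ind_vec]
      by_cases hz : x = z
      · subst hz
        by_cases hw : x = w
        · subst hw
          simp [Finset.filter_eq']
        · simp [hw]
      · simp [hz]
        intro _ h
        exact absurd h.symm hz
    · rw [if_neg hxy, if_neg hxy]; rfl
  simp only [h]
  simp

end Pool.Agent.Helper52_CV
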