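import Pool.Agent.Y463.MP.Func
import Pool.Agent.Helper52_CV.Near

/-!
# Braid words in a box and the Temperley–Lieb algebra over `ℤ[A, A⁻¹]`
-/

set_option autoImplicit false

namespace Pool.Agent.Helper52_CV

open Finset LaurentPolynomial Pool.Agent.H891R2.Jones Pool.Agent.W639.RB Pool.Agent.Y463.SK
  Pool.Agent.Y463.MP

variable {m : ℕ}

/-- the element of the Temperley–Lieb algebra given by a braid word -/
noncomputable def zz (w : List (Letter m)) : TLZ m := wd (T 1 : ℤ[T;T⁻¹]) (T (-1)) (EZ m) (toN w)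

theorem zz_nil : zz ([] : List (Letter m)) = 1 := rfl

theorem zz_append (v w : List (Letter m)) : zz (v ++ w) = zz v * zz w := by
  rw [zz, toN_append, wd_append]; rfl

theorem zz_single (x : Letter m) : zz [x] = sZ m (x.1, (x.2 : ℕ)) := by
  simp [zz, wd, toN, sZ]

theorem zz_cons (x : Letter m) (w : List (Letter m)) : zz (x :: w) = sZ m (x.1, (x.2 : ℕ)) * zz w := by
  have : x :: w = [x] ++ w := rfl
  rw [this, zz_append, zz_single]

theorem TT : (T 1 : ℤ[T;T⁻¹]) * T (-1) = 1 := T_mul_inv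

theorem sZ_true (m i : ℕ) : sZ m (true, i) = (T 1 : ℤ[T;T⁻¹]) • (1 : TLZ m) +
    (T (-1) : ℤ[T;T⁻¹]) • EZ m i := by
  simp [sZ, ltr]

theorem sZ_false (m i : ℕ) : sZ m (false, i) = (T (-1) : ℤ[T;T⁻¹]) • (1 : TLZ m) +
    (T 1 : ℤ[T;T⁻¹]) • EZ m i := by
  simp [sZ, ltr]

theorem sZ_inv (x : Bool × ℕ) (hx : x.2 + 1 < m) : sZ m x * sZ m (!x.1, x.2) = 1 := by
  have hE := (isTL_EZ m).sq x.2 hx
  obtain ⟨b, i⟩ := x
  have key : ∀ (a a' : ℤ[T;T⁻¹]) (e : TLZ m), a * a' = 1 → e * e = (-a ^ 2 - a' ^ 2) • e →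
      (a • (1 : TLZ m) + a' • e) * (a' • (1 : TLZ m) + a • e) = 1 := by
    intro a a' e h1 h2
    have h3 : (a • (1 : TLZ m) + a' • e) * (a' • (1 : TLZ m) + a • e) =
        (a * a') • (1 : TLZ m) + (a' * a' + a * a + a * a' * (-a ^ 2 - a' ^ 2)) • e := by
      simp only [mul_add, add_mul, smul_mul_assoc, mul_smul_comm, one_mul, mul_one, h2]
      module
    have h4 : a' * a' + a * a + a * a' * (-a ^ 2 - a' ^ 2) = 0 := by rw [h1]; ring
    rw [h3, h4, h1, one_smul, zero_smul, add_zero]
  cases b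
  · rw [Bool.not_false, sZ_false, sZ_true]
    refine key _ _ _ (by rw [mul_comm]; exact TT) ?_
    rw [hE]
    congr 1
    ring
  · rw [Bool.not_true, sZ_false, sZ_true]
    exact key _ _ _ TT hE

theorem letter_lt (x : Letter m) : (x.2 : ℕ) + 1 < m := by
  have := x.2.2
  omega

theorem invW_cons (x : Letter m) (w : List (Letter m)) : invW (x :: w) = invW w ++ [(!x.1, x.2)] := by
  simp [invW]

theorem invW_append (v w : List (Letter m)) : invW (v ++ w) = invW w ++ invW v := by
  simp [invW]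

theorem invW_invW (w : List (Letter m)) : invW (invW w) = w := by
  simp [invW, List.map_reverse, Function.comp_def]

theorem zz_inv (w : List (Letter m)) : zz w * zz (invW w) = 1 := by
  induction w with
  | nil => exact mul_one 1
  | cons x w ih =>
    rw [invW_cons, zz_cons, zz_append, zz_single, mul_assoc, ← mul_assoc (zz w), ih, one_mul]
    exact sZ_inv (x.1, (x.2 : ℕ)) (letter_lt x)

theorem zz_inv' (w : List (Letter m)) : zz (invW w) * zz w = 1 := by
  have := zz_inv (invW w)
  rwa [invW_invW] at this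

theorem Phi_draw (hm : 0 < m) (w : List (Letter m)) : ∀ (O : Outer m) (b : TLZ m),
    PhiS hm (draw O (toN w)) b = PhiS hm O (zz w * b) := by
  induction w with
  | nil => intro O b; rw [zz_nil, one_mul]; rfl
  | cons x w ih =>
    intro O b
    have h : draw O (toN (x :: w)) = draw (O.push x.1 x.2) (toN w) := rfl
    rw [h, ih, PhiS_push, zz_cons, mul_assoc]

theorem bracket_dia (hm : 0 < m) (O : Outer m) (w : List (Letter m)) :
    (dia O w).bracket = PhiS hm O (zz w) := by
  have h : (dia O w).bracket = (draw O (toN w)).close.bracket := rfl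
  rw [h, ← PhiS_one hm, Phi_draw hm, mul_one]

theorem writhe_dia (O : Outer m) (w : List (Letter m)) :
    (dia O w).writhe = owr O + costS (toN w) (pat O.up) :=
  (draw_writhe (toN w) O (toN_lt w)).1

theorem permL_invL' {w : List (Bool × ℕ)} (h : permL w = 1) : permL (invL w) = 1 := by
  have := permL_inv w
  rwa [h, one_mul] at this

theorem comp_one (U : ℕ → ℤ) : U ∘ ⇑(1 : Equiv.Perm ℕ) = U := rfl

end Pool.Agent.Helper52_CV
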